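import Pool.Agent.Helper21.NX2.ZeroAux
import Pool.Agent.Helper40.NX2.IGBasic
import Pool.Agent.Helper55.NX2.AqBasic
import Pool.Agent.Helper61.NX.PatA

/-!
Project NX2, module A36: the theorem on the integers, from the main theorem on mixed systems and
the statement on the frame function.
-/

set_option autoImplicit false

open Finset
open scoped BigOperators ComplexConjugate

namespace Pool.Agent.Helper67.NX2

open Pool.Agent.Helper57.NX

noncomputable section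

/-- the function on `ZMod (Q p)` attached to a function on the integers -/
def lift21 {N : ℕ} (Q : ℕ) (f : ℤ → ℂ) (x : ZMod N) : ℂ := f ((x.val / Q : ℕ) : ℤ)

theorem sum_div21 {M : Type} [AddCommMonoid M] (Q p : ℕ) (hQ : 0 < Q) (g : ℕ → M) :
    ∑ n ∈ range (Q * p), g (n / Q) = Q • ∑ y ∈ range p, g y := by
  induction p with
  | zero => simp
  | succ p ih =>
    rw [Nat.mul_succ, Finset.sum_range_add, ih, Finset.sum_range_succ, smul_add]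
    congr 1
    have h1 : ∀ r ∈ range Q, g ((Q * p + r) / Q) = g p := by
      intro r hr
      rw [Nat.mul_add_div hQ, Nat.div_eq_of_lt (Finset.mem_range.mp hr), add_zero]
    rw [Finset.sum_congr rfl h1, Finset.sum_const, Finset.card_range]

theorem sum_val21 {N : ℕ} [NeZero N] {M : Type} [AddCommMonoid M] (g : ℕ → M) :
    ∑ x : ZMod N, g x.val = ∑ n ∈ range N, g n := by
  refine Finset.sum_nbij' (fun x => x.val) (fun n => (n : ZMod N)) ?_ ?_ ?_ ?_ ?_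
  · intro x _
    exact Finset.mem_range.mpr (ZMod.val_lt x)
  · intro n _
    exact Finset.mem_univ _
  · intro x _
    exact ZMod.natCast_zmod_val x
  · intro n hn
    exact ZMod.val_cast_of_lt (Finset.mem_range.mp hn)
  · intro x _
    rfl

theorem expect_div21 {N : ℕ} [NeZero N] (Q p : ℕ) (hN : N = Q * p) (g : ℕ → ℝ) :
    𝔼 x : ZMod N, g (x.val / Q) = (∑ y ∈ range p, g y) / p := by
  have hN0 : N ≠ 0 := NeZero.ne N
  have hQ0 : 0 < Q := Nat.pos_of_ne_zero fun h => hN0 (by rw [hN, h, zero_mul])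
  have hp0 : 0 < p := Nat.pos_of_ne_zero fun h => hN0 (by rw [hN, h, mul_zero])
  rw [Fintype.expect_eq_sum_div_card, ZMod.card,
    sum_val21 (N := N) (fun n => g (n / Q)), hN, sum_div21 Q p hQ0 g, nsmul_eq_mul]
  have h1 : (Q : ℝ) ≠ 0 := by exact_mod_cast hQ0.ne'
  have h2 : (p : ℝ) ≠ 0 := by exact_mod_cast hp0.ne'
  push_cast
  field_simp

theorem expect_divC21 {N : ℕ} [NeZero N] (Q p : ℕ) (hN : N = Q * p) (g : ℕ → ℂ) :
    𝔼 x : ZMod N, g (x.val / Q) = (∑ y ∈ range p, g y) / p := by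
  have hN0 : N ≠ 0 := NeZero.ne N
  have hQ0 : 0 < Q := Nat.pos_of_ne_zero fun h => hN0 (by rw [hN, h, zero_mul])
  have hp0 : 0 < p := Nat.pos_of_ne_zero fun h => hN0 (by rw [hN, h, mul_zero])
  rw [Fintype.expect_eq_sum_div_card, ZMod.card,
    sum_val21 (N := N) (fun n => g (n / Q)), hN, sum_div21 Q p hQ0 g, nsmul_eq_mul]
  have h1 : (Q : ℂ) ≠ 0 := by exact_mod_cast hQ0.ne'
  have h2 : (p : ℂ) ≠ 0 := by exact_mod_cast hp0.ne'
  push_cast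
  field_simp

/-- adding a multiple of `Q` without wrap around -/
theorem val_div21 {N : ℕ} [NeZero N] (Q p : ℕ) (hN : N = Q * p) (x : ZMod N) (t : ℕ)
    (h : x.val / Q + t < p) : (x + ((Q * t : ℕ) : ZMod N)).val / Q = x.val / Q + t := by
  have hN0 : N ≠ 0 := NeZero.ne N
  have hQ0 : 0 < Q := Nat.pos_of_ne_zero fun h => hN0 (by rw [hN, h, zero_mul])
  have h1 : x.val < Q * (x.val / Q + 1) := Nat.lt_mul_div_succ x.val hQ0
  have h2 : x.val + Q * t < N := by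
    calc x.val + Q * t < Q * (x.val / Q + 1) + Q * t := by omega
      _ = Q * (x.val / Q + t + 1) := by ring
      _ ≤ Q * p := Nat.mul_le_mul_left Q h
      _ = N := hN.symm
  have h3 : (x + ((Q * t : ℕ) : ZMod N)).val = x.val + Q * t := by
    have h4 : ((Q * t : ℕ) : ZMod N).val = Q * t := ZMod.val_cast_of_lt (by omega)
    rw [ZMod.val_add_of_lt (by rw [h4]; exact h2), h4]
  rw [h3, Nat.add_mul_div_left _ _ hQ0]

theorem lift_adm21 {N : ℕ} [NeZero N] (Q p : ℕ) (hN : N = Q * p) (f : ℤ → ℂ)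
    (hf : ∀ x, ‖f x‖ ≤ 1) : Adm 2 Q (lift21 (N := N) Q f) := by
  have hN0 : N ≠ 0 := NeZero.ne N
  have hQ0 : 0 < Q := Nat.pos_of_ne_zero fun h => hN0 (by rw [hN, h, zero_mul])
  refine ⟨fun x => hf _, ?_⟩
  have h1 := tv_of_jumps hQ0 ⟨p, hN⟩ {Q - 1} (lift21 (N := N) Q f) (fun x => hf _) (by
    intro x hx
    rw [Finset.mem_singleton] at hx
    obtain ⟨h2, h3⟩ := val_succ hQ0 ⟨p, hN⟩ x hx
    change f (((x + 1).val / Q : ℕ) : ℤ) = f ((x.val / Q : ℕ) : ℤ)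
    rw [h2, (div_succ h3).1])
  simpa using h1

/-- averages on `ZMod (Q p)` and on the integers -/
theorem nrm_lift21 {N : ℕ} [NeZero N] (Q p Z q L : ℕ) (hN : N = Q * p) (f : ℤ → ℂ)
    (hf : ∀ x, ‖f x‖ ≤ 1) (hf0 : ∀ x, (x < 0 ∨ (Z : ℤ) ≤ x) → f x = 0) (hZp : 2 * Z < p)
    (hLZ : L * q ≤ Z) :
    p * nrm (Aq (Q * q) L (lift21 (N := N) Q f)) ≤
      ∑ x ∈ range Z, ‖𝔼 a ∈ range L, f (x + (q * a : ℕ))‖ + L * q := by
  have hp0 : (0 : ℝ) < p := by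
    have : 0 < p := by omega
    exact_mod_cast this
  set h : ℕ → ℝ := fun y => (if y < Z then ‖𝔼 a ∈ range L, f ((y : ℤ) + (q * a : ℕ))‖ else 0) +
    (if y + L * q < p then 0 else 1) with hh
  have h1 : nrm (Aq (Q * q) L (lift21 (N := N) Q f)) ≤ 𝔼 x : ZMod N, h (x.val / Q) := by
    unfold nrm
    refine Finset.expect_le_expect fun x _ => ?_
    unfold Aq
    by_cases hx : x.val / Q + L * q < p
    · have h2 : ∀ a ∈ range L, lift21 (N := N) Q f (x + ((Q * q * a : ℕ) : ZMod N)) =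
          f (((x.val / Q : ℕ) : ℤ) + (q * a : ℕ)) := by
        intro a ha
        have ha' := Finset.mem_range.mp ha
        unfold lift21
        have h3 : q * a ≤ L * q := by
          rw [mul_comm L q]
          exact Nat.mul_le_mul_left q ha'.le
        rw [mul_assoc, val_div21 Q p hN x (q * a) (by omega)]
        push_cast
        rfl
      rw [Finset.expect_congr rfl h2]
      simp only [hh]
      rw [if_pos hx, add_zero]
      by_cases hy : x.val / Q < Z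
      · rw [if_pos hy]
      · rw [if_neg hy]
        have h4 : ∀ a ∈ range L, f (((x.val / Q : ℕ) : ℤ) + (q * a : ℕ)) = 0 := by
          intro a _
          refine hf0 _ (Or.inr ?_)
          push Not at hy
          have h5 : (Z : ℤ) ≤ ((x.val / Q : ℕ) : ℤ) := by exact_mod_cast hy
          have h6 : (0 : ℤ) ≤ (q * a : ℕ) := Int.natCast_nonneg _
          linarith
        rw [Finset.expect_congr rfl h4]
        simp
    · simp only [hh]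
      rw [if_neg hx]
      have h2 : ‖𝔼 a ∈ range L, lift21 (N := N) Q f (x + ((Q * q * a : ℕ) : ZMod N))‖ ≤ 1 :=
        norm_expect_le_of5 _ _ zero_le_one fun _ _ => hf _
      refine h2.trans ?_
      have h3 : 0 ≤ (if x.val / Q < Z then
          ‖𝔼 a ∈ range L, f (((x.val / Q : ℕ) : ℤ) + (q * a : ℕ))‖ else 0) := by
        split_ifs
        · exact norm_nonneg _
        · exact le_rfl
      linarith
  rw [expect_div21 Q p hN h] at h1
  have h2 : p * nrm (Aq (Q * q) L (lift21 (N := N) Q f)) ≤ ∑ y ∈ range p, h y := by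
    have := mul_le_mul_of_nonneg_left h1 hp0.le
    rwa [mul_div_cancel₀ _ hp0.ne'] at this
  refine h2.trans ?_
  rw [hh, Finset.sum_add_distrib]
  refine add_le_add (le_of_eq ?_) ?_
  · rw [← Finset.sum_filter]
    refine Finset.sum_congr ?_ fun y _ => rfl
    ext y
    simp only [Finset.mem_filter, Finset.mem_range]
    omega
  · have h3 : ∑ y ∈ range p, (if y + L * q < p then (0 : ℝ) else 1) =
        #((range p).filter fun y => ¬ (y + L * q < p)) := by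
      rw [Finset.card_filter]
      push_cast
      refine Finset.sum_congr rfl fun y _ => ?_
      by_cases hy : y + L * q < p
      · rw [if_pos hy, if_neg (not_not.mpr hy)]
      · rw [if_neg hy, if_pos hy]
    rw [h3]
    have h4 : (range p).filter (fun y => ¬ (y + L * q < p)) ⊆ Ico (p - L * q) p := by
      intro y hy
      simp only [Finset.mem_filter, Finset.mem_range] at hy
      rw [Finset.mem_Ico]
      omega
    have h5 := Finset.card_le_card h4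
    rw [Nat.card_Ico] at h5
    have h6 : #((range p).filter fun y => ¬ (y + L * q < p)) ≤ L * q := by omega
    exact_mod_cast h6

/-- the form on `ZMod (Q p)` and on the integers -/
theorem form_lift21 {N s : ℕ} [NeZero N] (D : ℝ) (Q p Z lam u T : ℕ) (hN : N = Q * p)
    (P : Fin (s + 1) → ℝ) (c : Fin (s + 1) → ℝ) (d : Fin (s + 1) → ℕ) (hQ0 : 0 < Q)
    (ha : ∀ i k, (⟨D, 0, Q, u, T, P⟩ : Sys (s + 1)).a c i k =
      (Q : ℤ) * ((lam * k : ℕ) : ℤ) ^ d i)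
    (hZp : 2 * Z < p) (hkZ : ∀ i, ∀ k ∈ Ico u (u + T), (lam * k) ^ d i ≤ Z)
    (f0 : ℤ → ℂ) (f : Fin (s + 1) → ℤ → ℂ)
    (hsup : ∀ x, (x < 0 ∨ (Z : ℤ) ≤ x) → f0 x = 0 ∧ ∀ i, f i x = 0) :
    form (⟨D, 0, Q, u, T, P⟩ : Sys (s + 1)) c 1 (lift21 (N := N) Q f0)
      (fun i => lift21 (N := N) Q (f i)) =
    (𝔼 k ∈ Ico u (u + T), ∑ x ∈ range Z, f0 x * ∏ i, f i (x + ((lam * k) ^ (d i) : ℕ))) / p := by
  unfold form
  rw [Finset.expect_div]
  refine Finset.expect_congr rfl fun k hk => ?_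
  have hk' : k ∈ Ico u (u + T) := hk
  rw [Pi.one_apply, one_mul]
  set g : ℕ → ℂ := fun y => f0 y * ∏ i, f i (y + ((lam * k) ^ (d i) : ℕ)) with hg
  have h1 : ∀ x : ZMod N, lift21 (N := N) Q f0 x * ∏ i, lift21 (N := N) Q (f i)
      (x + (((⟨D, 0, Q, u, T, P⟩ : Sys (s + 1)).a c i k : ℤ) : ZMod N)) = g (x.val / Q) := by
    intro x
    by_cases hx : x.val / Q < Z
    · simp only [hg]
      unfold lift21
      congr 1
      refine Finset.prod_congr rfl fun i _ => ?_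
      have h2 := hkZ i k hk'
      have h3 : (((⟨D, 0, Q, u, T, P⟩ : Sys (s + 1)).a c i k : ℤ) : ZMod N) =
          ((Q * (lam * k) ^ d i : ℕ) : ZMod N) := by
        rw [ha]
        push_cast
        rfl
      rw [h3, val_div21 Q p hN x _ (by omega)]
      push_cast
      rfl
    · push Not at hx
      have h2 : f0 ((x.val / Q : ℕ) : ℤ) = 0 := (hsup _ (Or.inr (by exact_mod_cast hx))).1
      simp only [hg]
      unfold lift21
      rw [h2, zero_mul, zero_mul]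
  rw [Finset.expect_congr rfl fun x _ => h1 x, expect_divC21 Q p hN g]
  congr 1
  symm
  refine Finset.sum_subset (fun y hy => ?_) fun y _ hy => ?_
  · rw [Finset.mem_range] at hy ⊢
    omega
  · rw [Finset.mem_range, not_lt] at hy
    have h2 : f0 (y : ℤ) = 0 := (hsup _ (Or.inr (by exact_mod_cast hy))).1
    rw [h2, zero_mul]

/-- the systems of the theorem on the integers are good -/
theorem ig21 {s : ℕ} (D x : ℝ) (p Z lam u T : ℕ) (d : Fin (s + 1) → ℕ) (hx : 0 < x)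
    (hD4 : 4 ≤ D) (hDu : D ≤ u) (huT : (u : ℝ) + T ≤ 2 * D) (hT : D ^ (1 - x) ≤ T)
    (hlam : 1 ≤ lam) (hZ : ∀ i, ((lam : ℝ) * (3 * D)) ^ (d i) ≤ Z) (hp : p.Prime) (hZp : 2 * Z < p)
    (hlx : ∀ i, (lam : ℝ) ^ d i ≤ D ^ x) :
    IG (⟨D, 0, ⌈D ^ (2 : ℕ)⌉₊, u, T, fun i => (⌈D ^ (2 : ℕ)⌉₊ : ℝ) * (lam * D) ^ d i⟩ : Sys (s + 1))
      (fun i => (d i : ℝ)) (⌈D ^ (2 : ℕ)⌉₊ * p) x lam := by
  have hD0 : 0 < D := by linarith
  have hD1 : 1 ≤ D := by linarith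
  have hlam' : (1 : ℝ) ≤ lam := by exact_mod_cast hlam
  set Q : ℕ := ⌈D ^ (2 : ℕ)⌉₊ with hQ
  have hQ1 : D ^ (2 : ℕ) ≤ Q := Nat.le_ceil _
  have hQ2 : (Q : ℝ) < D ^ (2 : ℕ) + 1 := Nat.ceil_lt_add_one (by positivity)
  have hQ0 : (0 : ℝ) < Q := lt_of_lt_of_le (by positivity) hQ1
  have hQD : (Q : ℝ) ≤ 2 * D ^ 2 := by nlinarith
  have hZp' : (Z : ℝ) ≤ p := by
    have : Z ≤ p := by omega
    exact_mod_cast this
  have hp1 : (1 : ℝ) ≤ p := by exact_mod_cast hp.one_lt.le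
  have hDx : 1 ≤ D ^ x := Real.one_le_rpow hD1 hx.le
  refine ⟨⟨le_rfl, zero_le_one, ?_, ?_, ?_, ?_, ?_, ?_, hDu, huT, hT⟩, ?_, hlam, ⟨0, by simp⟩, ?_,
    ⟨p, hp, rfl⟩⟩
  · change D ^ (2 : ℝ) ≤ Q
    rw [show (2 : ℝ) = ((2 : ℕ) : ℝ) by norm_num, Real.rpow_natCast]
    exact hQ1
  · change (Q : ℝ) ≤ D ^ (3 : ℝ)
    rw [show (3 : ℝ) = ((3 : ℕ) : ℝ) by norm_num, Real.rpow_natCast]
    nlinarith
  · intro i
    change (Q : ℝ) * D ^ ((d i : ℝ) - x) ≤ Q * (lam * D) ^ d i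
    refine mul_le_mul_of_nonneg_left ?_ hQ0.le
    calc D ^ ((d i : ℝ) - x) ≤ D ^ (d i : ℝ) := Real.rpow_le_rpow_of_exponent_le hD1 (by linarith)
      _ = D ^ d i := Real.rpow_natCast _ _
      _ ≤ (lam * D) ^ d i := pow_le_pow_left₀ hD0.le (by nlinarith) _
  · intro i
    change (Q : ℝ) * (lam * D) ^ d i ≤ Q * D ^ ((d i : ℝ) + x)
    refine mul_le_mul_of_nonneg_left ?_ hQ0.le
    rw [mul_pow, Real.rpow_add hD0, Real.rpow_natCast, mul_comm]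
    exact mul_le_mul_of_nonneg_left (hlx i) (by positivity)
  · intro i
    change (Q : ℝ) * (lam * D) ^ d i ≤ ((Q * p : ℕ) : ℝ) * D ^ x
    have h1 : (lam * D) ^ d i ≤ p := by
      refine le_trans ?_ ((hZ i).trans hZp')
      exact pow_le_pow_left₀ (by positivity) (by nlinarith) _
    push_cast
    calc (Q : ℝ) * (lam * D) ^ d i ≤ Q * p * 1 := by
          rw [mul_one]
          exact mul_le_mul_of_nonneg_left h1 hQ0.le
      _ ≤ Q * p * D ^ x := mul_le_mul_of_nonneg_left hDx (by positivity)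
  · change (Q : ℝ) ≤ ((Q * p : ℕ) : ℝ)
    push_cast
    exact le_mul_of_one_le_right hQ0.le hp1
  · change (Q : ℝ) ≤ D ^ (5 / 2 + x)
    have h1 : D ^ (5 / 2 + x) = D ^ 2 * (D ^ (1 / 2 : ℝ) * D ^ x) := by
      rw [← Real.rpow_natCast, ← Real.rpow_add hD0, ← Real.rpow_add hD0]
      congr 1
      push_cast
      ring
    have h2 : (2 : ℝ) ≤ D ^ (1 / 2 : ℝ) := by
      calc (2 : ℝ) = 4 ^ (1 / 2 : ℝ) := by
            rw [show (4 : ℝ) = 2 ^ (2 : ℝ) by norm_num, ← Real.rpow_mul (by norm_num)]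
            norm_num
        _ ≤ D ^ (1 / 2 : ℝ) := Real.rpow_le_rpow (by norm_num) hD4 (by norm_num)
    rw [h1]
    have h3 : 2 * 1 ≤ D ^ (1 / 2 : ℝ) * D ^ x := mul_le_mul h2 hDx zero_le_one (by positivity)
    nlinarith [sq_nonneg D]
  · intro i d' hd'
    have h1 : d i = d' := by exact_mod_cast hd'
    change (Q : ℝ) * (lam * D) ^ d i = Q * (lam * D) ^ d'
    rw [h1]

theorem thmP_of21 (s : ℕ) (d : Fin (s + 1) → ℕ)
    (hU : ∀ ε : ℝ, 0 < ε → UPm (s + 1) (fun i => (d i : ℝ)) ε)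
    (hZA : ∀ ε : ℝ, 0 < ε →
      ∃ x0 : ℝ, 0 < x0 ∧ ∃ C : ℕ, ∃ σ : ℝ, 0 < σ ∧ ∃ D0 : ℝ,
      ∀ (S : Sys (s + 1)) (N : ℕ) [NeZero N] (lam : ℕ), D0 ≤ S.D →
      IG S (fun i => (d i : ℝ)) N x0 lam →
      ∀ δ : ℝ, S.D ^ (-σ) ≤ δ → δ ≤ 1 / 2 → (lam : ℝ) ≤ δ⁻¹ →
      ∀ (f0 : ZMod N → ℂ) (f : Fin (s + 1) → ZMod N → ℂ),
      Adm δ⁻¹ S.Q f0 → (∀ i, Adm δ⁻¹ S.Q (f i)) → δ ≤ ‖form S (fun i => (d i : ℝ)) 1 f0 f‖ →
      ∃ q : ℕ, 1 ≤ q ∧ (q : ℝ) ≤ δ⁻¹ ^ C ∧ ∀ L : ℕ, 1 ≤ L →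
        (L : ℝ) * (S.Q * q) ≤ S.P 0 * S.D ^ (-ε) → δ ^ C ≤ nrm (Aq (S.Q * q) L f0)) :
    ∀ ε : ℝ, 0 < ε →
    ∃ x0 : ℝ, 0 < x0 ∧ ∃ C : ℕ, ∃ σ : ℝ, 0 < σ ∧ ∃ D0 : ℝ,
    ∀ (D : ℝ) (lam u T Z : ℕ), D0 ≤ D → D ≤ u → (u : ℝ) + T ≤ 2 * D → D ^ (1 - x0) ≤ T →
    1 ≤ lam → (∀ i, (lam * (3 * D)) ^ (d i) ≤ Z) →
    ∀ δ : ℝ, D ^ (-σ) ≤ δ → δ ≤ 1 / 2 → (lam : ℝ) ≤ δ⁻¹ →
    ∀ (f0 : ℤ → ℂ) (f : Fin (s + 1) → ℤ → ℂ), (∀ x, ‖f0 x‖ ≤ 1) → (∀ i x, ‖f i x‖ ≤ 1) →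
    (∀ x, (x < 0 ∨ (Z : ℤ) ≤ x) → f0 x = 0 ∧ ∀ i, f i x = 0) →
    δ * Z ≤ ‖𝔼 k ∈ Ico u (u + T), ∑ x ∈ range Z, f0 x * ∏ i, f i (x + ((lam * k) ^ (d i) : ℕ))‖ →
    ∃ q : ℕ, 1 ≤ q ∧ (q : ℝ) ≤ δ⁻¹ ^ C ∧
      (∀ L : ℕ, 1 ≤ L → (L : ℝ) * q ≤ D ^ (d 0 - ε) →
        δ ^ C * Z ≤ ∑ x ∈ range Z, ‖𝔼 a ∈ range L, f0 (x + (q * a : ℕ))‖) ∧
      (∀ i, ∀ L : ℕ, 1 ≤ L → (L : ℝ) * q ≤ D ^ (d i - ε) →
        δ ^ C * Z ≤ ∑ x ∈ range Z, ‖𝔼 a ∈ range L, f i (x + (q * a : ℕ))‖) := by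
  intro ε hε
  obtain ⟨x1, hx1, C1, σ1, hσ1, D1, H1⟩ := hU ε hε
  obtain ⟨x2, hx2, C2, σ2, hσ2, D2, H2⟩ := hZA ε hε
  set c : Fin (s + 1) → ℝ := fun i => (d i : ℝ) with hc
  set x0 : ℝ := min x1 x2 with hx0
  have hx0' : 0 < x0 := lt_min hx1 hx2
  set M : ℕ := 4 * C1 + 4 * C2 + ∑ i, d i + 4 with hM
  have hM0 : (0 : ℝ) < M := by rw [hM]; positivity
  refine ⟨x0, hx0', 4 * C1 + 4 * C2, min (min σ1 σ2 / M) (min x0 ε / M),
    lt_min (div_pos (lt_min hσ1 hσ2) hM0) (div_pos (lt_min hx0' hε) hM0), max 4 (max D1 D2), ?_⟩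
  intro D lam u T Z hD hDu huT hT hlam hZ δ hδσ hδ hlamδ f0 f hf0 hf hsup hform
  set σ : ℝ := min (min σ1 σ2 / M) (min x0 ε / M) with hσ
  have hD4 : 4 ≤ D := (le_max_left _ _).trans hD
  have hDa : D1 ≤ D := ((le_max_left _ _).trans (le_max_right _ _)).trans hD
  have hDb : D2 ≤ D := ((le_max_right _ _).trans (le_max_right _ _)).trans hD
  have hD0 : 0 < D := by linarith
  have hD1 : 1 ≤ D := by linarith
  have hδ0 : 0 < δ := (Real.rpow_pos_of_pos hD0 _).trans_le hδσ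
  have hσ0 : 0 < σ := lt_min (div_pos (lt_min hσ1 hσ2) hM0) (div_pos (lt_min hx0' hε) hM0)
  have hinv2 : 2 ≤ δ⁻¹ := by
    rw [le_inv_comm₀ (by norm_num) hδ0]
    linarith
  have hσM1 : σ * M ≤ min σ1 σ2 := by
    have : σ ≤ min σ1 σ2 / M := min_le_left _ _
    rwa [le_div_iff₀ hM0] at this
  have hσM2 : σ * M ≤ min x0 ε := by
    have : σ ≤ min x0 ε / M := min_le_right _ _
    rwa [le_div_iff₀ hM0] at this
  have hσn : ∀ n : ℕ, n ≤ M → σ * n ≤ σ * M := fun n hn =>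
    mul_le_mul_of_nonneg_left (by exact_mod_cast hn) hσ0.le
  have hdM : ∀ i, d i ≤ M := fun i => by
    have h1 : d i ≤ ∑ i, d i := Finset.single_le_sum (f := d) (fun _ _ => Nat.zero_le _)
      (Finset.mem_univ i)
    omega
  -- the modulus
  have hlamr : (1 : ℝ) ≤ lam := by exact_mod_cast hlam
  have hZ1 : 1 ≤ Z := by
    have h1 : (1 : ℝ) ≤ (lam * (3 * D)) ^ (d 0) := one_le_pow₀ (by nlinarith)
    exact_mod_cast h1.trans (hZ 0)
  have hZr : (1 : ℝ) ≤ Z := by exact_mod_cast hZ1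
  obtain ⟨p, hp, hp1, hp2⟩ := Nat.exists_prime_lt_and_le_two_mul (4 * Z) (by omega)
  have hp0 : 0 < p := hp.pos
  have hpr1 : 4 * (Z : ℝ) ≤ p := by exact_mod_cast hp1.le
  have hpr2 : (p : ℝ) ≤ 8 * Z := by
    have : p ≤ 8 * Z := by omega
    exact_mod_cast this
  have hpr0 : (0 : ℝ) < p := by exact_mod_cast hp0
  set Q : ℕ := ⌈D ^ (2 : ℕ)⌉₊ with hQ
  have hQpos : 0 < Q := Nat.ceil_pos.mpr (by positivity)
  have hQr : (0 : ℝ) < Q := by exact_mod_cast hQpos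
  haveI : NeZero (Q * p) := ⟨(Nat.mul_pos hQpos hp0).ne'⟩
  have hIG : IG (⟨D, 0, Q, u, T, fun i => (Q : ℝ) * (lam * D) ^ d i⟩ : Sys (s + 1)) c (Q * p) x0
      lam := ig21 D x0 p Z lam u T d hx0' hD4 hDu huT hT hlam hZ hp (by omega) (fun i =>
        (pow_le_pow_left₀ (by positivity) hlamδ _).trans (inv_pow_le21 hD1 hδσ
          ((hσn (d i) (hdM i)).trans (hσM2.trans (min_le_left _ _)))))
  set S : Sys (s + 1) := ⟨D, 0, Q, u, T, fun i => (Q : ℝ) * (lam * D) ^ d i⟩ with hS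
  have ha : ∀ i k, S.a c i k = (Q : ℤ) * ((lam * k : ℕ) : ℤ) ^ d i := by
    intro i k
    have h1 := a_nat hIG (by exact hD0) (r := 0) (by simp [hS]) i (d i) rfl k
    rw [add_zero] at h1
    exact h1
  have hkZ : ∀ i, ∀ k ∈ Ico u (u + T), (lam * k) ^ d i ≤ Z := by
    intro i k hk
    rw [Finset.mem_Ico] at hk
    have h1 : (k : ℝ) ≤ u + T := by exact_mod_cast hk.2.le
    have h2 : (((lam * k) ^ d i : ℕ) : ℝ) ≤ Z := by
      push_cast
      refine le_trans ?_ (hZ i)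
      exact pow_le_pow_left₀ (by positivity)
        (mul_le_mul_of_nonneg_left (by linarith) (by positivity)) _
    exact_mod_cast h2
  have hFL := form_lift21 (N := Q * p) D Q p Z lam u T rfl (fun i => (Q : ℝ) * (lam * D) ^ d i) c d
    hQpos ha (by omega) hkZ f0 f hsup
  -- the new parameter
  have hδ4 : δ ^ 4 ≤ δ / 8 := by
    have h1 : δ ^ 4 = δ * (δ * δ * δ) := by ring
    have h2 : δ * δ * δ ≤ 1 / 2 * (1 / 2) * (1 / 2) := by gcongr
    rw [h1]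
    nlinarith
  have hform1 : δ ^ 4 ≤ ‖form S c 1 (lift21 (N := Q * p) Q f0)
      (fun i => lift21 (N := Q * p) Q (f i))‖ := by
    refine hδ4.trans ?_
    rw [hFL, norm_div, Complex.norm_natCast, le_div_iff₀ hpr0]
    refine le_trans ?_ hform
    calc δ / 8 * p ≤ δ / 8 * (8 * Z) := by gcongr
      _ = δ * Z := by ring
  have hδ41 : δ ^ 4 ≤ 1 / 2 := by
    have : δ / 8 ≤ 1 / 2 := by linarith
    linarith
  have hinv4 : δ⁻¹ ≤ (δ ^ 4)⁻¹ := by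
    rw [← inv_pow]
    exact le_self_pow₀ (by linarith) (by norm_num)
  have hδ4a : D ^ (-σ1) ≤ δ ^ 4 := le_pow21 hD1 hδσ ((hσn 4 (by omega)).trans
    (hσM1.trans (min_le_left _ _)))
  have hδ4b : D ^ (-σ2) ≤ δ ^ 4 := le_pow21 hD1 hδσ ((hσn 4 (by omega)).trans
    (hσM1.trans (min_le_right _ _)))
  have hadm : ∀ g : ℤ → ℂ, (∀ x, ‖g x‖ ≤ 1) → Adm (δ ^ 4)⁻¹ (S.Q : ℝ)
      (lift21 (N := Q * p) Q g) := fun g hg =>
    (lift_adm21 Q p rfl g hg).mono (hinv2.trans hinv4) hQr le_rfl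
  obtain ⟨q1, hq1, hq1', hq1L⟩ := H1 S (Q * p) lam hDa (hIG.mono (min_le_left _ _) hD1) (δ ^ 4)
    hδ4a hδ41 (hlamδ.trans hinv4) (lift21 (N := Q * p) Q f0)
    (fun i => lift21 (N := Q * p) Q (f i)) (hadm f0 hf0) (fun i => hadm (f i) (hf i)) hform1
  obtain ⟨q2, hq2, hq2', hq2L⟩ := H2 S (Q * p) lam hDb (hIG.mono (min_le_right _ _) hD1) (δ ^ 4)
    hδ4b hδ41 (hlamδ.trans hinv4) (lift21 (N := Q * p) Q f0)
    (fun i => lift21 (N := Q * p) Q (f i)) (hadm f0 hf0) (fun i => hadm (f i) (hf i)) hform1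
  -- the conclusion for one function
  have key : ∀ (g : ℤ → ℂ) (i : Fin (s + 1)) (C : ℕ) (q : ℕ), (∀ x, ‖g x‖ ≤ 1) →
      (∀ x, (x < 0 ∨ (Z : ℤ) ≤ x) → g x = 0) → C ≤ C1 + C2 → 1 ≤ q → ∀ L : ℕ, 1 ≤ L →
      (L : ℝ) * q ≤ D ^ ((d i : ℝ) - ε) →
      (δ ^ 4) ^ C ≤ nrm (Aq (Q * q) L (lift21 (N := Q * p) Q g)) →
      δ ^ (4 * C1 + 4 * C2) * Z ≤ ∑ x ∈ range Z, ‖𝔼 a ∈ range L, g (x + (q * a : ℕ))‖ := by
    intro g i C q hg hg0 hC hq L hL hLq hn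
    have h1 : D ^ ((d i : ℝ) - ε) ≤ Z * D ^ (-ε) := by
      rw [sub_eq_add_neg, Real.rpow_add hD0, Real.rpow_natCast]
      refine mul_le_mul_of_nonneg_right ?_ (by positivity)
      refine le_trans ?_ (hZ i)
      exact pow_le_pow_left₀ hD0.le (by nlinarith) _
    have h2 : D ^ (-ε) ≤ 1 := Real.rpow_le_one_of_one_le_of_nonpos hD1 (by linarith)
    have h3 : (L : ℝ) * q ≤ Z := by
      refine hLq.trans (h1.trans ?_)
      exact mul_le_of_le_one_right (by positivity) h2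
    have h4 : L * q ≤ Z := by exact_mod_cast h3
    have h5 := nrm_lift21 (N := Q * p) Q p Z q L rfl g hg hg0 (by omega) h4
    have h6 : δ ^ (4 * C1 + 4 * C2) ≤ (δ ^ 4) ^ C := by
      rw [← pow_mul]
      exact pow_le_pow_of_le_one hδ0.le (by linarith) (by omega)
    have h7 : D ^ (-ε) ≤ δ ^ (4 * C1 + 4 * C2) := le_pow21 hD1 hδσ
      ((hσn _ (by omega)).trans (hσM2.trans (min_le_right _ _)))
    have h8 : p * δ ^ (4 * C1 + 4 * C2) ≤
        p * nrm (Aq (Q * q) L (lift21 (N := Q * p) Q g)) :=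
      mul_le_mul_of_nonneg_left (h6.trans hn) hpr0.le
    have h9 : 4 * (Z : ℝ) * δ ^ (4 * C1 + 4 * C2) ≤ p * δ ^ (4 * C1 + 4 * C2) :=
      mul_le_mul_of_nonneg_right hpr1 (by positivity)
    have h10 : (L : ℝ) * q ≤ Z * δ ^ (4 * C1 + 4 * C2) :=
      hLq.trans (h1.trans (mul_le_mul_of_nonneg_left h7 (by positivity)))
    have h11 : 0 ≤ (Z : ℝ) * δ ^ (4 * C1 + 4 * C2) := by positivity
    nlinarith
  have hPD : ∀ i, (Q : ℝ) * D ^ ((d i : ℝ) - ε) ≤ S.P i * S.D ^ (-ε) := by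
    intro i
    change (Q : ℝ) * D ^ ((d i : ℝ) - ε) ≤ (Q : ℝ) * (lam * D) ^ d i * D ^ (-ε)
    rw [sub_eq_add_neg, Real.rpow_add hD0, Real.rpow_natCast, mul_assoc]
    refine mul_le_mul_of_nonneg_left ?_ hQr.le
    refine mul_le_mul_of_nonneg_right ?_ (by positivity)
    exact pow_le_pow_left₀ hD0.le (by nlinarith) _
  refine ⟨q1 * q2, Nat.mul_pos hq1 hq2, ?_, ?_, ?_⟩
  · push_cast
    calc (q1 : ℝ) * q2 ≤ (δ ^ 4)⁻¹ ^ C1 * (δ ^ 4)⁻¹ ^ C2 := by gcongr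
      _ = δ⁻¹ ^ (4 * C1 + 4 * C2) := by
        rw [pow_add, pow_mul, pow_mul, inv_pow δ 4]
  · intro L hL hLq
    refine key f0 0 C2 (q1 * q2) hf0 (fun x hx => (hsup x hx).1) (by omega)
      (Nat.mul_pos hq1 hq2) L hL hLq ?_
    have h1 := hq2L (q1 * L) (Nat.mul_pos hq1 hL) (by
      refine le_trans ?_ (hPD 0)
      change (((q1 * L : ℕ) : ℝ)) * ((Q : ℝ) * q2) ≤ Q * D ^ ((d 0 : ℝ) - ε)
      calc (((q1 * L : ℕ) : ℝ)) * ((Q : ℝ) * q2) = Q * (L * ((q1 * q2 : ℕ) : ℝ)) := by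
            push_cast; ring
        _ ≤ _ := mul_le_mul_of_nonneg_left hLq hQr.le)
    refine h1.trans ((nrm_Aq_mul (Q * q2) q1 L hq1 _).trans (le_of_eq ?_))
    congr 2
    ring
  · intro i L hL hLq
    refine key (f i) i C1 (q1 * q2) (hf i) (fun x hx => (hsup x hx).2 i) (by omega)
      (Nat.mul_pos hq1 hq2) L hL hLq ?_
    have hst : stp S.Q q1 (c i) = Q * q1 := stp_nat _ _ ⟨d i, rfl⟩
    have h1 := hq1L i (q2 * L) (Nat.mul_pos hq2 hL) (by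
      rw [hst]
      refine le_trans ?_ (hPD i)
      calc (((q2 * L : ℕ) : ℝ)) * ((Q * q1 : ℕ) : ℝ) = Q * (L * ((q1 * q2 : ℕ) : ℝ)) := by
            push_cast; ring
        _ ≤ _ := mul_le_mul_of_nonneg_left hLq hQr.le)
    rw [hst] at h1
    refine h1.trans ((nrm_Aq_mul (Q * q1) q2 L hq2 _).trans (le_of_eq ?_))
    congr 2
    ring

end

end Pool.Agent.Helper67.NX2
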