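import Pool.Agent.Helper21.NX2.ZeroArithOf
import Pool.Agent.Helper5.NX2.Ratl

/-!
Project NX2, module A35: the frame function (natural exponents).
-/

set_option autoImplicit false

open Finset
open scoped BigOperators ComplexConjugate

namespace Pool.Agent.Helper67.NX2

open Pool.Agent.Helper57.NX

theorem zero_arith (hES : ES0) (m : ℕ) (c : Fin (m + 1) → ℝ) (hc : Ex c)
    (hcN : ∀ i, IsN (c i)) (hU : ∀ ε : ℝ, 0 < ε → UsJ m c 0 ε univ) : ∀ ε : ℝ, 0 < ε →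
    ∃ x0 : ℝ, 0 < x0 ∧ ∃ C : ℕ, ∃ σ : ℝ, 0 < σ ∧ ∃ D0 : ℝ,
    ∀ (S : Sys (m + 1)) (N : ℕ) [NeZero N] (lam : ℕ), D0 ≤ S.D → IG S c N x0 lam →
    ∀ δ : ℝ, S.D ^ (-σ) ≤ δ → δ ≤ 1 / 2 → (lam : ℝ) ≤ δ⁻¹ →
    ∀ (f0 : ZMod N → ℂ) (f : Fin (m + 1) → ZMod N → ℂ),
    Adm δ⁻¹ S.Q f0 → (∀ i, Adm δ⁻¹ S.Q (f i)) → δ ≤ ‖form S c 1 f0 f‖ →
    ∃ q : ℕ, 1 ≤ q ∧ (q : ℝ) ≤ δ⁻¹ ^ C ∧ ∀ L : ℕ, 1 ≤ L →
      (L : ℝ) * (S.Q * q) ≤ S.P 0 * S.D ^ (-ε) → δ ^ C ≤ nrm (Aq (S.Q * q) L f0) :=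
  zero_arith_of21 m c (fun a ε hε => ratl hES c (fun i j hij => by linarith [hc.gap i j hij])
    (fun i => by linarith [hc.two i]) a ε hε) hc hcN hU

end Pool.Agent.Helper67.NX2
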