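import Pool.Agent.Helper21.NX2.ZeroAux
import Pool.Agent.Helper40.NX2.IGBasic
import Pool.Agent.Helper55.NX2.AqBasic
import Pool.Agent.Helper81.NX2.CharRep

/-!
Project NX2, module A35: the frame function (natural exponents), from the statement on phases with
large window sums (A5, `RatlSt21`).
-/

set_option autoImplicit false

open Finset
open scoped BigOperators ComplexConjugate

namespace Pool.Agent.Helper67.NX2

open Pool.Agent.Helper57.NX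

noncomputable section

/-- the sizes of the steps of the sequences relative to `P i` -/
theorem step_le21 {m : ℕ} {S : Sys m} {c : Fin m → ℝ} {N : ℕ} [NeZero N] {x : ℝ} {lam : ℕ}
    (hG : IG S c N x lam) (hD : 1 ≤ S.D) (i : Fin m) (d : ℕ) (hd : c i = d) (hd1 : 1 ≤ d)
    (k q j : ℕ) (hk : ((k + q * j : ℕ) : ℝ) + S.ρ ≤ 4 * S.D) :
    ∃ t : ℤ, S.a c i (k + q * j) = S.a c i k + ((S.Q * q : ℕ) : ℤ) * t ∧
      |(t : ℝ)| * ((S.Q * q : ℕ) : ℝ) / S.P i ≤ d * 4 ^ d * (q * j / S.D) := by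
  have hD0 : 0 < S.D := by linarith
  obtain ⟨r, hr⟩ := hG.rho
  obtain ⟨t, ht1, ht2⟩ := step21 S.Q lam r k q j d
  refine ⟨t, ?_, ?_⟩
  · rw [a_nat hG hD0 hr i d hd, a_nat hG hD0 hr i d hd]
    exact ht1
  · have hQ0 : (0 : ℝ) < S.Q := (Real.rpow_pos_of_pos hD0 _).trans_le hG.good.Q1
    have hlam : (0 : ℝ) < lam := by exact_mod_cast hG.lam1
    have hP : S.P i = S.Q * (lam * S.D) ^ d := hG.Pint i d hd
    have hP0 : 0 < S.P i := by rw [hP]; positivity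
    rw [div_le_iff₀ hP0, hP]
    refine ht2.trans ?_
    have h1 : ((lam * (k + q * j) + r : ℕ) : ℝ) ≤ 4 * (lam * S.D) := by
      push_cast at hk ⊢
      rw [← hr]
      nlinarith
    have h2 : ((lam * (k + q * j) + r : ℕ) : ℝ) ^ (d - 1) ≤ (4 * (lam * S.D)) ^ (d - 1) :=
      pow_le_pow_left₀ (Nat.cast_nonneg _) h1 _
    have h3 : (lam * S.D) ^ d = (lam * S.D) ^ (d - 1) * (lam * S.D) := by
      rw [← pow_succ]
      congr 1
      omega
    have h4 : (4 : ℝ) ^ (d - 1) ≤ 4 ^ d := pow_le_pow_right₀ (by norm_num) (by omega)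
    calc S.Q * (d * (lam * (q * j)) * ((lam * (k + q * j) + r : ℕ) : ℝ) ^ (d - 1))
        ≤ S.Q * (d * (lam * (q * j)) * (4 * (lam * S.D)) ^ (d - 1)) := by gcongr
      _ = S.Q * (d * (lam * (q * j)) * (4 ^ (d - 1) * (lam * S.D) ^ (d - 1))) := by rw [mul_pow]
      _ ≤ S.Q * (d * (lam * (q * j)) * (4 ^ d * (lam * S.D) ^ (d - 1))) := by gcongr
      _ = d * 4 ^ d * (q * j / S.D) * (S.Q * (lam * S.D) ^ d) := by
        rw [h3]
        field_simp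

/-- the phases of the sequences -/
theorem phase21 {m : ℕ} {S : Sys m} {c : Fin m → ℝ} {N : ℕ} [NeZero N] {x : ℝ} {lam : ℕ}
    (hG : IG S c N x lam) (hD : 1 ≤ S.D) (i : Fin m) (d : ℕ) (hd : c i = d) (θ : ℝ) (k : ℕ) :
    θ * (S.a c i k : ℝ) = θ * S.P i * (((k : ℝ) + S.ρ) / S.D) ^ (c i) := by
  have hD0 : 0 < S.D := by linarith
  obtain ⟨r, hr⟩ := hG.rho
  rw [a_nat hG hD0 hr i d hd, hG.Pint i d hd, hd, Real.rpow_natCast]
  push_cast
  rw [← hr, mul_assoc, mul_assoc, ← mul_pow]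
  congr 3
  field_simp

/-- Window step: a large form with characters and local functions gives a large window sum of the
phases, and a large average against the frame function. -/
theorem window21 {m N : ℕ} [NeZero N] {S : Sys (m + 1)} {c : Fin (m + 1) → ℝ} {x : ℝ} {lam : ℕ}
    (hG : IG S c N x lam) (hD : 1 ≤ S.D) (d : Fin (m + 1) → ℕ) (hd : ∀ i, c i = d i)
    (hd1 : ∀ i, 1 ≤ d i) (f0 : ZMod N → ℂ) (hf0 : ∀ x, ‖f0 x‖ ≤ 1) (b : Fin (m + 1) → ℤ)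
    (cc : Fin (m + 1) → ZMod N → ℂ) (hcc : ∀ i x, ‖cc i x‖ ≤ 1) (q K : ℕ) (W η : ℝ)
    (hK1 : 1 ≤ K) (hW : 0 ≤ W)
    (hlip : ∀ i (x : ZMod N) (t : ℤ), ‖cc i (x + ((((S.Q * q : ℕ) : ℤ) * t : ℤ) : ZMod N)) -
      cc i x‖ ≤ |(t : ℝ)| * ((S.Q * q : ℕ) : ℝ) * W / S.P i)
    (hKD : (q : ℝ) * K ≤ S.D) (hT : 1 ≤ S.T)
    (herr : 2 * (q * K) / S.T + (∑ i, (d i : ℝ) * 4 ^ d i) * (q * K / S.D) * W < η / 2)
    (hform : η ≤ ‖form S c 1 f0 (fun i x => e ((b i : ℝ) / N * x.val) * cc i x)‖) :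
    ∃ k0 ∈ S.I,
      η / 2 ≤ ‖𝔼 j ∈ range K, e (∑ i, ((b i : ℝ) / N * S.P i) *
        ((((k0 + q * j : ℕ) : ℝ) + S.ρ) / S.D) ^ (c i))‖ ∧
      η / 2 ≤ ‖𝔼 x : ZMod N, f0 x * ∏ i, (e ((b i : ℝ) / N * x.val) *
        cc i (x + (S.a c i k0 : ZMod N)))‖ := by
  classical
  have hD0 : 0 < S.D := by linarith
  have hQ0 : (0 : ℝ) < S.Q := (Real.rpow_pos_of_pos hD0 _).trans_le hG.good.Q1
  have hlam : (0 : ℝ) < lam := by exact_mod_cast hG.lam1
  have hP0 : ∀ i, 0 < S.P i := fun i => by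
    rw [hG.Pint i (d i) (hd i)]; positivity
  set θ : Fin (m + 1) → ℝ := fun i => (b i : ℝ) / N with hθ
  set G : ℕ → ℂ := fun k => 𝔼 x : ZMod N, f0 x * ∏ i, (e ((b i : ℝ) / N *
    ((x + (S.a c i k : ZMod N)).val : ℝ)) * cc i (x + (S.a c i k : ZMod N))) with hGdef
  set w : ℕ → ℂ := fun k => e (∑ i, ((b i : ℝ) / N * S.P i) *
    (((k : ℝ) + S.ρ) / S.D) ^ (c i)) with hw
  set Mk : ℕ → ℂ := fun k => 𝔼 x : ZMod N, f0 x * ∏ i, (e ((b i : ℝ) / N * x.val) *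
        cc i (x + (S.a c i k : ZMod N))) with hMk
  have hform' : form S c 1 f0 (fun i x => e ((b i : ℝ) / N * x.val) * cc i x) = 𝔼 k ∈ S.I, G k := by
    unfold form
    refine Finset.expect_congr rfl fun k _ => ?_
    rw [Pi.one_apply, one_mul]
  have hwk : ∀ k, w k = ∏ i, e (θ i * (S.a c i k : ℝ)) := by
    intro k
    rw [hw, ← e_sum21]
    simp only
    congr 1
    refine Finset.sum_congr rfl fun i _ => ?_
    rw [phase21 hG hD i (d i) (hd i)]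
  have hGk : ∀ k, G k = w k * Mk k := by
    intro k
    rw [hwk, hGdef, hMk]
    simp only
    rw [Finset.mul_expect]
    refine Finset.expect_congr rfl fun x _ => ?_
    rw [mul_left_comm, ← Finset.prod_mul_distrib]
    congr 1
    refine Finset.prod_congr rfl fun i _ => ?_
    rw [char_add21]
    ring
  have hnw : ∀ k, ‖w k‖ = 1 := fun k => norm_e _
  have hprod : ∀ (g : Fin (m + 1) → ℂ), (∀ i, ‖g i‖ ≤ 1) → ‖∏ i, g i‖ ≤ 1 := by
    intro g hg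
    rw [norm_prod]
    exact Finset.prod_le_one (fun j _ => norm_nonneg _) fun j _ => hg j
  have hterm : ∀ i (x : ZMod N) (y : ZMod N), ‖e ((b i : ℝ) / N * x.val) * cc i y‖ ≤ 1 := by
    intro i x y
    rw [norm_mul, norm_e, one_mul]
    exact hcc i y
  have hnM : ∀ k, ‖Mk k‖ ≤ 1 := by
    intro k
    refine norm_expect_le_of5 _ _ zero_le_one fun x _ => ?_
    rw [norm_mul]
    exact mul_le_one₀ (hf0 x) (norm_nonneg _) (hprod _ fun i => hterm i x _)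
  have hnG : ∀ k, ‖G k‖ ≤ 1 := by
    intro k
    rw [hGk, norm_mul, hnw, one_mul]
    exact hnM k
  -- the difference of `Mk`
  have hdiff : ∀ k ∈ S.I, ∀ j ∈ range K, ‖G (k + q * j) - w (k + q * j) * Mk k‖ ≤
      (∑ i, (d i : ℝ) * 4 ^ d i) * (q * K / S.D) * W := by
    intro k hk j hj
    rw [hGk, ← mul_sub, norm_mul, hnw, one_mul]
    rw [Sys.I, Finset.mem_Ico] at hk
    have hk2 : (k : ℝ) + 1 ≤ S.u + S.T := by exact_mod_cast hk.2
    have hj2 : (j : ℝ) ≤ K := by exact_mod_cast (Finset.mem_range.mp hj).le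
    have hqj : (q : ℝ) * j ≤ q * K := mul_le_mul_of_nonneg_left hj2 (Nat.cast_nonneg _)
    have hu2 := hG.good.u2
    have hρ1 := hG.good.ρ1
    have hkk : ((k + q * j : ℕ) : ℝ) + S.ρ ≤ 4 * S.D := by
      push_cast
      linarith
    have h1 : Mk (k + q * j) - Mk k = 𝔼 x : ZMod N, f0 x * (∏ i, (e ((b i : ℝ) / N * x.val) *
        cc i (x + (S.a c i (k + q * j) : ZMod N))) - ∏ i, (e ((b i : ℝ) / N * x.val) *
        cc i (x + (S.a c i k : ZMod N)))) := by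
      rw [hMk]
      simp only
      rw [← Finset.expect_sub_distrib]
      refine Finset.expect_congr rfl fun x _ => ?_
      ring
    rw [h1]
    refine norm_expect_le_of5 _ _ ?_ fun x _ => ?_
    · have : 0 ≤ ∑ i, (d i : ℝ) * 4 ^ d i := Finset.sum_nonneg fun i _ => by positivity
      positivity
    rw [norm_mul]
    refine (mul_le_of_le_one_left (norm_nonneg _) (hf0 x)).trans ?_
    refine (prod_sub_prod21 univ (fun i _ => hterm i x _) (fun i _ => hterm i x _)).trans ?_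
    rw [Finset.sum_mul, Finset.sum_mul]
    refine Finset.sum_le_sum fun i _ => ?_
    rw [← mul_sub, norm_mul, norm_e, one_mul]
    obtain ⟨t, ht1, ht2⟩ := step_le21 hG hD i (d i) (hd i) (hd1 i) k q j hkk
    rw [ht1]
    have h2 : ((S.a c i k + ((S.Q * q : ℕ) : ℤ) * t : ℤ) : ZMod N) =
        (S.a c i k : ZMod N) + ((((S.Q * q : ℕ) : ℤ) * t : ℤ) : ZMod N) := by
      rw [Int.cast_add]
    rw [h2, ← add_assoc]
    refine (hlip i _ t).trans ?_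
    calc |(t : ℝ)| * ((S.Q * q : ℕ) : ℝ) * W / S.P i
        = (|(t : ℝ)| * ((S.Q * q : ℕ) : ℝ) / S.P i) * W := by ring
      _ ≤ ((d i : ℝ) * 4 ^ d i * (q * j / S.D)) * W := mul_le_mul_of_nonneg_right ht2 hW
      _ ≤ (d i : ℝ) * 4 ^ d i * (q * K / S.D) * W := by gcongr
  by_contra hcon
  push Not at hcon
  -- all windows are small
  have hsmall : ∀ k ∈ S.I, ‖𝔼 j ∈ range K, w (k + q * j) * Mk k‖ ≤ η / 2 := by
    intro k hk
    by_contra h1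
    push Not at h1
    have h2 : 𝔼 j ∈ range K, w (k + q * j) * Mk k = (𝔼 j ∈ range K, w (k + q * j)) * Mk k := by
      rw [Finset.expect_mul]
    rw [h2, norm_mul] at h1
    have h3 : ‖𝔼 j ∈ range K, w (k + q * j)‖ ≤ 1 :=
      norm_expect_le_of5 _ _ zero_le_one fun j _ => (hnw _).le
    have h4 : η / 2 ≤ ‖𝔼 j ∈ range K, w (k + q * j)‖ :=
      h1.le.trans (mul_le_of_le_one_right (norm_nonneg _) (hnM k))
    have h5 : η / 2 ≤ ‖Mk k‖ := h1.le.trans (mul_le_of_le_one_left (norm_nonneg _) h3)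
    have h6 := hcon k hk
    rw [hw] at h4
    simp only at h4
    exact absurd h5 (not_le.mpr (h6 h4))
  have hIne : S.I.Nonempty := by
    rw [Sys.I, Finset.nonempty_Ico]
    omega
  have hT0 : (0 : ℝ) < S.T := by exact_mod_cast hT
  have hKne : (range K).Nonempty := Finset.nonempty_range_iff.mpr (by omega)
  -- shifting
  have h1 : ‖𝔼 k ∈ S.I, G k - 𝔼 k ∈ S.I, 𝔼 j ∈ range K, G (k + q * j)‖ ≤ 2 * (q * K) / S.T := by
    have h2 : 𝔼 k ∈ S.I, G k - 𝔼 k ∈ S.I, 𝔼 j ∈ range K, G (k + q * j) =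
        𝔼 j ∈ range K, (𝔼 k ∈ S.I, G k - 𝔼 k ∈ S.I, G (k + q * j)) := by
      rw [Finset.expect_sub_distrib, Finset.expect_const hKne,
        Finset.expect_comm S.I (range K) fun k j => G (k + q * j)]
    rw [h2]
    refine norm_expect_le_of5 _ _ (by positivity) fun j hj => ?_
    refine (shift_expect21 hnG S.u S.T (q * j) hT).trans ?_
    have hj2 : (j : ℝ) ≤ K := by exact_mod_cast (Finset.mem_range.mp hj).le
    push_cast
    gcongr
  have h2 : ‖𝔼 k ∈ S.I, 𝔼 j ∈ range K, G (k + q * j) -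
      𝔼 k ∈ S.I, 𝔼 j ∈ range K, w (k + q * j) * Mk k‖ ≤
      (∑ i, (d i : ℝ) * 4 ^ d i) * (q * K / S.D) * W := by
    rw [← Finset.expect_sub_distrib]
    have h0 : 0 ≤ (∑ i, (d i : ℝ) * 4 ^ d i) * (q * K / S.D) * W := by
      have : 0 ≤ ∑ i, (d i : ℝ) * 4 ^ d i := Finset.sum_nonneg fun i _ => by positivity
      positivity
    refine norm_expect_le_of5 _ _ h0 fun k hk => ?_
    rw [← Finset.expect_sub_distrib]
    exact norm_expect_le_of5 _ _ h0 fun j hj => hdiff k hk j hj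
  have hη0 : 0 ≤ η / 2 := by
    refine le_trans ?_ herr.le
    have : 0 ≤ ∑ i, (d i : ℝ) * 4 ^ d i := Finset.sum_nonneg fun i _ => by positivity
    positivity
  have h3 : ‖𝔼 k ∈ S.I, 𝔼 j ∈ range K, w (k + q * j) * Mk k‖ ≤ η / 2 :=
    norm_expect_le_of5 _ _ hη0 hsmall
  rw [hform'] at hform
  have h4 : 𝔼 k ∈ S.I, G k = (𝔼 k ∈ S.I, G k - 𝔼 k ∈ S.I, 𝔼 j ∈ range K, G (k + q * j)) +
      ((𝔼 k ∈ S.I, 𝔼 j ∈ range K, G (k + q * j) -
      𝔼 k ∈ S.I, 𝔼 j ∈ range K, w (k + q * j) * Mk k) +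
      𝔼 k ∈ S.I, 𝔼 j ∈ range K, w (k + q * j) * Mk k) := by ring
  rw [h4] at hform
  have h5 := hform.trans ((norm_add_le _ _).trans (add_le_add h1 ((norm_add_le _ _).trans
    (add_le_add h2 h3))))
  linarith

/-- replacing the frame function by its averages -/
theorem frame21 {N : ℕ} [NeZero N] (f H : ZMod N → ℂ) (st L : ℕ) (ζ : ℝ) (hL : 1 ≤ L)
    (hf : ∀ x, ‖f x‖ ≤ 1) (hH : ∀ x, ‖H x‖ ≤ 1)
    (hlip : ∀ a < L, ∀ x, ‖H (x + ((st * a : ℕ) : ZMod N)) - H x‖ ≤ ζ) :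
    ‖𝔼 x, f x * H x‖ ≤ nrm (Aq st L f) + ζ := by
  have hζ : 0 ≤ ζ := (norm_nonneg _).trans (hlip 0 (by omega) 0)
  have hLne : (range L).Nonempty := Finset.nonempty_range_iff.mpr (by omega)
  have h1 : 𝔼 x, f x * H x = 𝔼 x, 𝔼 a ∈ range L,
      f (x + ((st * a : ℕ) : ZMod N)) * H (x + ((st * a : ℕ) : ZMod N)) := by
    rw [Finset.expect_comm]
    rw [Finset.expect_congr rfl fun a _ => expect_shift (fun x => f x * H x)
      ((st * a : ℕ) : ZMod N), Finset.expect_const hLne]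
  have h2 : 𝔼 x, f x * H x = (𝔼 x, 𝔼 a ∈ range L,
      f (x + ((st * a : ℕ) : ZMod N)) * (H (x + ((st * a : ℕ) : ZMod N)) - H x)) +
      𝔼 x, Aq st L f x * H x := by
    rw [h1, ← Finset.expect_add_distrib]
    refine Finset.expect_congr rfl fun x _ => ?_
    unfold Aq
    rw [Finset.expect_mul, ← Finset.expect_add_distrib]
    refine Finset.expect_congr rfl fun a _ => ?_
    ring
  rw [h2]
  refine (norm_add_le _ _).trans ?_
  rw [add_comm]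
  refine add_le_add ?_ ?_
  · refine (norm_expect_le5 _ _).trans ?_
    unfold nrm
    refine Finset.expect_le_expect fun x _ => ?_
    rw [norm_mul]
    exact mul_le_of_le_one_right (norm_nonneg _) (hH x)
  · refine norm_expect_le_of5 _ _ hζ fun x _ => ?_
    refine norm_expect_le_of5 _ _ hζ fun a ha => ?_
    rw [norm_mul]
    exact (mul_le_of_le_one_left (norm_nonneg _) (hf _)).trans
      (hlip a (Finset.mem_range.mp ha) x)

/-- the statement on phases with large window sums (A5) -/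
def RatlSt21 {m : ℕ} (c : Fin m → ℝ) : Prop :=
    ∀ (a ε : ℝ), 0 < ε →
    ∃ x0 : ℝ, 0 < x0 ∧ ∃ C : ℕ, ∃ σ : ℝ, 0 < σ ∧ ∃ D0 : ℝ, ∀ D : ℝ, D0 ≤ D →
    ∀ ρ : ℝ, 0 ≤ ρ → ρ ≤ 1 → ∀ lam : ℕ, 1 ≤ lam → (∃ r : ℕ, ρ * lam = r) →
    ∀ δ : ℝ, D ^ (-σ) ≤ δ → δ ≤ 1 / 2 → (lam : ℝ) ≤ δ⁻¹ →
    ∀ v : Fin m → ℝ, (∀ i, |v i| ≤ D ^ a) →
    ∀ q k K : ℕ, 1 ≤ q → (q : ℝ) ≤ δ⁻¹ → D ≤ k → (k : ℝ) ≤ 3 * D → D ^ (1 - x0) ≤ K →
    (q : ℝ) * K ≤ D →
    δ ≤ ‖𝔼 j ∈ range K, e (∑ i, v i * ((((k + q * j : ℕ) : ℝ) + ρ) / D) ^ (c i))‖ →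
    (∀ i, ¬ IsN (c i) → |v i| ≤ D ^ ε) ∧
    ∃ q' : ℕ, 1 ≤ q' ∧ (q' : ℝ) ≤ δ⁻¹ ^ C ∧ ∀ (i : Fin m) (d : ℕ), c i = d →
      dint (q' * (v i / (lam * D) ^ d)) ≤ D ^ (ε - d)

theorem zero_arith_of21 (m : ℕ) (c : Fin (m + 1) → ℝ) (hR : RatlSt21 c) (hc : Ex c)
    (hcN : ∀ i, IsN (c i)) (hU : ∀ ε : ℝ, 0 < ε → UsJ m c 0 ε univ) : ∀ ε : ℝ, 0 < ε →
    ∃ x0 : ℝ, 0 < x0 ∧ ∃ C : ℕ, ∃ σ : ℝ, 0 < σ ∧ ∃ D0 : ℝ,
    ∀ (S : Sys (m + 1)) (N : ℕ) [NeZero N] (lam : ℕ), D0 ≤ S.D → IG S c N x0 lam →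
    ∀ δ : ℝ, S.D ^ (-σ) ≤ δ → δ ≤ 1 / 2 → (lam : ℝ) ≤ δ⁻¹ →
    ∀ (f0 : ZMod N → ℂ) (f : Fin (m + 1) → ZMod N → ℂ),
    Adm δ⁻¹ S.Q f0 → (∀ i, Adm δ⁻¹ S.Q (f i)) → δ ≤ ‖form S c 1 f0 f‖ →
    ∃ q : ℕ, 1 ≤ q ∧ (q : ℝ) ≤ δ⁻¹ ^ C ∧ ∀ L : ℕ, 1 ≤ L →
      (L : ℝ) * (S.Q * q) ≤ S.P 0 * S.D ^ (-ε) → δ ^ C ≤ nrm (Aq (S.Q * q) L f0) := by
  intro ε hε
  choose d hd using hcN
  have hd2 : ∀ i, 2 ≤ d i := fun i => by
    have h := hc.two i
    rw [hd i] at h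
    exact_mod_cast h
  have hmono : StrictMono c := fun i j hij => by linarith [hc.gap i j hij]
  have hmono' : Monotone c := hmono.monotone
  obtain ⟨x2, hx2, C2, σ2, hσ2, D2, H2⟩ := hR (c (Fin.last m) + 1) (ε / 2)
    (by positivity)
  set ε1 := min (ε / 4) (min (x2 / 4) (1 / 4)) with hε1def
  have hε1 : 0 < ε1 := lt_min (by positivity) (lt_min (by positivity) (by norm_num))
  have hε1a : ε1 ≤ ε / 4 := min_le_left _ _
  have hε1b : ε1 ≤ x2 / 4 := (min_le_right _ _).trans (min_le_left _ _)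
  have hε1c : ε1 ≤ 1 / 4 := (min_le_right _ _).trans (min_le_right _ _)
  obtain ⟨x1, hx1, C1, σ1, hσ1, D1, H1⟩ := char_rep m c hc 0 le_rfl
    (by linarith [hc.two (Fin.last m)]) univ hU ε1 hε1
  set A0 : ℝ := ∑ i, (d i : ℝ) * 4 ^ d i with hA0
  have hA0' : 0 ≤ A0 := Finset.sum_nonneg fun i _ => by positivity
  set M : ℕ := C1 + d 0 + 2 with hM
  have hM0 : (0 : ℝ) < M := by rw [hM]; positivity
  set B : ℝ := 8 * (2 + A0) + 32 * (m + 1) with hB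
  have hB1 : 1 ≤ B := by
    have : (0 : ℝ) ≤ m := Nat.cast_nonneg _
    linarith
  refine ⟨min x1 (ε1 / 4), lt_min hx1 (by positivity), C1 + (C1 + 1) * C2 + 2,
    min σ1 (min (σ2 / M) (ε1 / (8 * M))), lt_min hσ1 (lt_min (by positivity) (by positivity)),
    max D1 (max D2 (max 4 (max (2 ^ (2 / x2)) (B ^ (4 / ε1))))), ?_⟩
  intro S N _ lam hD hG δ hδσ hδ hlamδ f0 f hf0 hf hform
  have hDa : D1 ≤ S.D := (le_max_left _ _).trans hD
  have hDr1 := (le_max_right _ _).trans hD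
  have hDb : D2 ≤ S.D := (le_max_left _ _).trans hDr1
  have hDr2 := (le_max_right _ _).trans hDr1
  have hD4 : 4 ≤ S.D := (le_max_left _ _).trans hDr2
  have hDr3 := (le_max_right _ _).trans hDr2
  have hDc : (2 : ℝ) ^ (2 / x2) ≤ S.D := (le_max_left _ _).trans hDr3
  have hDd : B ^ (4 / ε1) ≤ S.D := (le_max_right _ _).trans hDr3
  have hD1 : 1 ≤ S.D := by linarith
  have hD0 : 0 < S.D := by linarith
  have hδ0 : 0 < δ := (Real.rpow_pos_of_pos hD0 _).trans_le hδσ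
  have hinv2 : 2 ≤ δ⁻¹ := by
    rw [le_inv_comm₀ (by norm_num) hδ0]
    linarith
  -- exponents
  set σ := min σ1 (min (σ2 / M) (ε1 / (8 * M))) with hσdef
  have hσa : σ ≤ σ1 := min_le_left _ _
  have hσb : σ ≤ σ2 / M := (min_le_right _ _).trans (min_le_left _ _)
  have hσc : σ ≤ ε1 / (8 * M) := (min_le_right _ _).trans (min_le_right _ _)
  have hσ0 : 0 < σ := lt_min hσ1 (lt_min (by positivity) (by positivity))
  have hσM2 : σ * M ≤ σ2 := by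
    rwa [le_div_iff₀ hM0] at hσb
  have hσM1 : σ * M ≤ ε1 / 8 := by
    rw [le_div_iff₀ (by positivity)] at hσc
    linarith
  have hσn : ∀ n : ℕ, n ≤ M → σ * n ≤ ε1 / 8 := fun n hn => by
    have h1 : (n : ℝ) ≤ M := by exact_mod_cast hn
    exact (mul_le_mul_of_nonneg_left h1 hσ0.le).trans hσM1
  have hrp : ∀ {a b : ℝ}, a ≤ b → S.D ^ a ≤ S.D ^ b := fun h =>
    Real.rpow_le_rpow_of_exponent_le hD1 h
  have hBD : B ≤ S.D ^ (ε1 / 4) := by
    have h1 : (B ^ (4 / ε1)) ^ (ε1 / 4) ≤ S.D ^ (ε1 / 4) :=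
      Real.rpow_le_rpow (by positivity) hDd (by positivity)
    rwa [← Real.rpow_mul (by linarith), show 4 / ε1 * (ε1 / 4) = 1 by field_simp,
      Real.rpow_one] at h1
  have h2D : 2 ≤ S.D ^ (x2 / 2) := by
    have h1 : ((2 : ℝ) ^ (2 / x2)) ^ (x2 / 2) ≤ S.D ^ (x2 / 2) :=
      Real.rpow_le_rpow (by positivity) hDc (by positivity)
    rwa [← Real.rpow_mul (by norm_num), show 2 / x2 * (x2 / 2) = 1 by field_simp,
      Real.rpow_one] at h1
  -- sizes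
  have hG1 : IG S c N x1 lam := hG.mono (min_le_left _ _) hD1
  have hGx : IG S c N (ε1 / 4) lam := hG.mono (min_le_right _ _) hD1
  have hQ0 : (0 : ℝ) < S.Q := (Real.rpow_pos_of_pos hD0 _).trans_le hG.good.Q1
  have hlam : (1 : ℝ) ≤ lam := by exact_mod_cast hG.lam1
  have hPi : ∀ i, S.P i = S.Q * (lam * S.D) ^ d i := fun i => hG.Pint i (d i) (hd i)
  have hP0 : ∀ i, 0 < S.P i := fun i => by rw [hPi]; positivity
  have hd0 : ∀ i, d 0 ≤ d i := fun i => by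
    have h := hmono' (Fin.zero_le i)
    rw [hd, hd] at h
    exact_mod_cast h
  have hP0i : ∀ i, S.P 0 ≤ S.P i := fun i => by
    rw [hPi, hPi]
    have h1 : (1 : ℝ) ≤ lam * S.D := by nlinarith
    exact mul_le_mul_of_nonneg_left (pow_le_pow_right₀ h1 (hd0 i)) hQ0.le
  -- the character representation
  obtain ⟨q1, hq1, hq1', b, cc, hbc, hform1⟩ := H1 S N lam hDa hG1 δ
    ((hrp (by linarith)).trans hδσ) hδ hlamδ S.Q le_rfl
    (by
      refine mul_le_of_le_one_right hQ0.le ?_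
      exact Real.rpow_le_one_of_one_le_of_nonpos hD1 (by linarith))
    (by rw [Real.rpow_zero, mul_one]) 1 f0 f (fun k => by simp) hf0 hf (hf _) hform
  have hstp : ∀ i, stp S.Q q1 (c i) = S.Q * q1 := fun i => stp_nat _ _ ⟨d i, hd i⟩
  have hform2 : δ ^ C1 ≤ ‖form S c 1 f0 (fun i x => e ((b i : ℝ) / N * x.val) * cc i x)‖ := by
    simpa using hform1
  have hq1D : (q1 : ℝ) ≤ S.D ^ (ε1 / 8) := hq1'.trans (inv_pow_le21 hD1 hδσ (hσn C1 (by omega)))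
  have hq1r : (1 : ℝ) ≤ q1 := by exact_mod_cast hq1
  -- the window length
  set K : ℕ := ⌊S.D ^ (1 - 2 * ε1)⌋₊ with hK
  have hKle : (K : ℝ) ≤ S.D ^ (1 - 2 * ε1) := Nat.floor_le (by positivity)
  have hK2 : 2 ≤ S.D ^ (1 - 2 * ε1) := by
    calc (2 : ℝ) = 4 ^ (1 / 2 : ℝ) := by
          rw [show (4 : ℝ) = 2 ^ (2 : ℝ) by norm_num, ← Real.rpow_mul (by norm_num)]
          norm_num
      _ ≤ S.D ^ (1 / 2 : ℝ) := Real.rpow_le_rpow (by norm_num) hD4 (by norm_num)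
      _ ≤ _ := hrp (by linarith)
  have hKge : S.D ^ (1 - 2 * ε1) / 2 ≤ K := by
    have h1 := Nat.lt_floor_add_one (S.D ^ (1 - 2 * ε1))
    linarith
  have hK1 : 1 ≤ K := by
    have h1 : (1 : ℝ) ≤ K := by linarith
    exact_mod_cast h1
  have hKx : S.D ^ (1 - x2) ≤ K := by
    have h1 : S.D ^ (1 - x2) * 2 ≤ S.D ^ (1 - 2 * ε1) := by
      calc S.D ^ (1 - x2) * 2 ≤ S.D ^ (1 - x2) * S.D ^ (x2 / 2) := by gcongr
        _ = S.D ^ (1 - x2 + x2 / 2) := by rw [← Real.rpow_add hD0]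
        _ ≤ _ := hrp (by linarith)
    linarith
  have hqK : (q1 : ℝ) * K ≤ S.D ^ (1 - 2 * ε1 + ε1 / 8) := by
    calc (q1 : ℝ) * K ≤ S.D ^ (ε1 / 8) * S.D ^ (1 - 2 * ε1) := by gcongr
      _ = _ := by rw [← Real.rpow_add hD0]; congr 1; ring
  have hqKD : (q1 : ℝ) * K ≤ S.D := by
    refine hqK.trans ?_
    calc S.D ^ (1 - 2 * ε1 + ε1 / 8) ≤ S.D ^ (1 : ℝ) := hrp (by linarith)
      _ = S.D := Real.rpow_one _
  have hTr : S.D ^ (1 - ε1 / 4) ≤ S.T := hGx.good.T1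
  have hT0 : (0 : ℝ) < S.T := (Real.rpow_pos_of_pos hD0 _).trans_le hTr
  have hT1 : 1 ≤ S.T := by exact_mod_cast hT0
  have hδC1 : S.D ^ (-(ε1 / 8)) ≤ δ ^ C1 := le_pow21 hD1 hδσ (hσn C1 (by omega))
  have herr : 2 * (q1 * K) / S.T + A0 * (q1 * K / S.D) * S.D ^ ε1 < δ ^ C1 / 2 := by
    have h1 : (q1 * K : ℝ) / S.T ≤ S.D ^ (-(ε1 / 2)) := by
      rw [div_le_iff₀ hT0]
      calc (q1 * K : ℝ) ≤ S.D ^ (1 - 2 * ε1 + ε1 / 8) := hqK
        _ ≤ S.D ^ (-(ε1 / 2) + (1 - ε1 / 4)) := hrp (by linarith)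
        _ = S.D ^ (-(ε1 / 2)) * S.D ^ (1 - ε1 / 4) := Real.rpow_add hD0 _ _
        _ ≤ _ := by gcongr
    have h2 : (q1 * K : ℝ) / S.D * S.D ^ ε1 ≤ S.D ^ (-(ε1 / 2)) := by
      rw [div_mul_eq_mul_div, div_le_iff₀ hD0]
      calc (q1 * K : ℝ) * S.D ^ ε1 ≤ S.D ^ (1 - 2 * ε1 + ε1 / 8) * S.D ^ ε1 := by gcongr
        _ = S.D ^ (1 - 2 * ε1 + ε1 / 8 + ε1) := (Real.rpow_add hD0 _ _).symm
        _ ≤ S.D ^ (-(ε1 / 2) + 1) := hrp (by linarith)
        _ = S.D ^ (-(ε1 / 2)) * S.D := by rw [Real.rpow_add hD0, Real.rpow_one]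
    have h3 : 2 * (q1 * K) / S.T + A0 * (q1 * K / S.D) * S.D ^ ε1 ≤
        (2 + A0) * S.D ^ (-(ε1 / 2)) := by
      have h4 : 2 * (q1 * K : ℝ) / S.T = 2 * (q1 * K / S.T) := by ring
      have h5 : A0 * (q1 * K / S.D) * S.D ^ ε1 = A0 * (q1 * K / S.D * S.D ^ ε1) := by ring
      rw [h4, h5, add_mul]
      gcongr
    have h6 : (2 + A0) * S.D ^ (-(ε1 / 2)) * 8 ≤ S.D ^ (-(ε1 / 8)) := by
      calc (2 + A0) * S.D ^ (-(ε1 / 2)) * 8 = (8 * (2 + A0)) * S.D ^ (-(ε1 / 2)) := by ring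
        _ ≤ S.D ^ (ε1 / 4) * S.D ^ (-(ε1 / 2)) := by
          refine mul_le_mul_of_nonneg_right ?_ (by positivity)
          have : (0 : ℝ) ≤ m := Nat.cast_nonneg _
          linarith
        _ = S.D ^ (ε1 / 4 + -(ε1 / 2)) := (Real.rpow_add hD0 _ _).symm
        _ ≤ _ := hrp (by linarith)
    have h7 : 0 < S.D ^ (-(ε1 / 8)) := Real.rpow_pos_of_pos hD0 _
    linarith
  have hcc1 : ∀ i x, ‖cc i x‖ ≤ 1 := fun i => (hbc i (mem_univ i)).2.2.1.bdd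
  have hlip : ∀ i (x : ZMod N) (t : ℤ), ‖cc i (x + ((((S.Q * q1 : ℕ) : ℤ) * t : ℤ) : ZMod N)) -
      cc i x‖ ≤ |(t : ℝ)| * ((S.Q * q1 : ℕ) : ℝ) * S.D ^ ε1 / S.P i := by
    intro i x t
    have h1 := (hbc i (mem_univ i)).2.2.2 x t
    rw [hstp i] at h1
    exact h1
  obtain ⟨k0, hk0, hw, hMk⟩ := window21 hG hD1 d hd (fun i => by linarith [hd2 i]) f0 hf0.bdd b cc
    hcc1 q1 K (S.D ^ ε1) (δ ^ C1) hK1 (by positivity) hlip hqKD hT1 herr hform2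
  rw [Sys.I, Finset.mem_Ico] at hk0
  have hk0u : (S.u : ℝ) ≤ k0 := by exact_mod_cast hk0.1
  have hk0T : (k0 : ℝ) ≤ S.u + S.T := by exact_mod_cast hk0.2.le
  -- the rational approximations
  have hδ1 : δ ^ (C1 + 1) ≤ δ ^ C1 / 2 := by
    rw [pow_succ]
    have h1 : 0 < δ ^ C1 := by positivity
    nlinarith
  have hδ1' : δ ^ (C1 + 1) ≤ 1 / 2 := by
    have h1 : δ ^ C1 ≤ 1 := pow_le_one₀ hδ0.le (by linarith)
    linarith
  have hinv1 : δ⁻¹ ≤ (δ ^ (C1 + 1))⁻¹ := by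
    rw [← inv_pow]
    exact le_self_pow₀ (by linarith) (by omega)
  obtain ⟨-, q', hq', hq'', hdint⟩ := H2 S.D hDb S.ρ hG.good.ρ0 hG.good.ρ1 lam hG.lam1 hG.rho
    (δ ^ (C1 + 1)) (by
      have h1 : σ * ((C1 + 1 : ℕ) : ℝ) ≤ σ2 := by
        have h2 : ((C1 + 1 : ℕ) : ℝ) ≤ M := by exact_mod_cast (by omega : C1 + 1 ≤ M)
        exact (mul_le_mul_of_nonneg_left h2 hσ0.le).trans hσM2
      exact le_pow21 hD1 hδσ h1) hδ1' (hlamδ.trans hinv1)
    (fun i => (b i : ℝ) / N * S.P i) (by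
      intro i
      rw [abs_mul, abs_of_pos (hP0 i)]
      have h1 : S.P i ≤ S.Q * S.D ^ (c i + ε1 / 4) := hGx.good.P2 i
      calc |(b i : ℝ) / N| * S.P i ≤ (δ⁻¹ ^ C1 / S.Q) * (S.Q * S.D ^ (c i + ε1 / 4)) :=
            mul_le_mul (hbc i (mem_univ i)).1 h1 (hP0 i).le (by positivity)
        _ = δ⁻¹ ^ C1 * S.D ^ (c i + ε1 / 4) := by field_simp
        _ ≤ S.D ^ (ε1 / 8) * S.D ^ (c i + ε1 / 4) := by
          refine mul_le_mul_of_nonneg_right ?_ (by positivity)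
          exact inv_pow_le21 hD1 hδσ (hσn C1 (by omega))
        _ = S.D ^ (ε1 / 8 + (c i + ε1 / 4)) := (Real.rpow_add hD0 _ _).symm
        _ ≤ _ := hrp (by linarith [hmono' (Fin.le_last i)]))
    q1 k0 K hq1 (hq1'.trans (by
      rw [← inv_pow]
      exact pow_le_pow_right₀ (by linarith) (by omega)))
    (hG.good.u1.trans hk0u) (by linarith [hG.good.u2]) hKx hqKD (hδ1.trans hw)
  have hq'r : (1 : ℝ) ≤ q' := by exact_mod_cast hq'
  have hdi : ∀ i, dint (q' * ((b i : ℝ) / N * S.Q)) ≤ S.D ^ (ε / 2 - d i) := by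
    intro i
    have h1 := hdint i (d i) (hd i)
    have h2 : (b i : ℝ) / N * S.P i / (lam * S.D) ^ d i = (b i : ℝ) / N * S.Q := by
      rw [hPi]
      have : (lam * S.D) ^ d i ≠ 0 := by positivity
      field_simp
    rwa [h2] at h1
  refine ⟨q1 * q', Nat.mul_pos hq1 hq', ?_, ?_⟩
  · have h1 : (q' : ℝ) ≤ δ⁻¹ ^ ((C1 + 1) * C2) := by
      rw [pow_mul, inv_pow δ (C1 + 1)]
      exact hq''
    calc ((q1 * q' : ℕ) : ℝ) = q1 * q' := by push_cast; ring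
      _ ≤ δ⁻¹ ^ C1 * δ⁻¹ ^ ((C1 + 1) * C2) := by gcongr
      _ = δ⁻¹ ^ (C1 + (C1 + 1) * C2) := by rw [← pow_add]
      _ ≤ _ := pow_le_pow_right₀ (by linarith) (by omega)
  intro L hL hLq
  -- the error in the last step
  set H : ZMod N → ℂ := fun x => ∏ i, (e ((b i : ℝ) / N * x.val) *
        cc i (x + (S.a c i k0 : ZMod N))) with hH
  have hterm : ∀ i (x : ZMod N) (y : ZMod N), ‖e ((b i : ℝ) / N * x.val) * cc i y‖ ≤ 1 := by
    intro i x y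
    rw [norm_mul, norm_e, one_mul]
    exact hcc1 i y
  have hH1 : ∀ x, ‖H x‖ ≤ 1 := by
    intro x
    rw [hH]
    simp only
    rw [norm_prod]
    exact Finset.prod_le_one (fun j _ => norm_nonneg _) fun j _ => hterm j x _
  have hLr : (1 : ℝ) ≤ L := by exact_mod_cast hL
  have hLq1 : (q1 : ℝ) * L ≤ S.D ^ (ε1 / 8) * S.D ^ ((d 0 : ℝ) - ε) := by
    have h1 : (q1 : ℝ) * L * S.Q ≤ S.P 0 * S.D ^ (-ε) := by
      refine le_trans ?_ hLq
      push_cast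
      have : (q1 : ℝ) * L * S.Q * 1 ≤ (q1 : ℝ) * L * S.Q * q' := by gcongr
      linarith
    rw [hPi] at h1
    have h2 : (q1 : ℝ) * L ≤ (lam * S.D) ^ d 0 * S.D ^ (-ε) := by
      have h3 : (q1 : ℝ) * L * S.Q ≤ ((lam * S.D) ^ d 0 * S.D ^ (-ε)) * S.Q := by linarith
      exact le_of_mul_le_mul_right h3 hQ0
    refine h2.trans ?_
    rw [mul_pow, sub_eq_add_neg, Real.rpow_add hD0, Real.rpow_natCast, mul_assoc]
    refine mul_le_mul_of_nonneg_right ?_ (by positivity)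
    calc (lam : ℝ) ^ d 0 ≤ δ⁻¹ ^ d 0 := pow_le_pow_left₀ (by positivity) hlamδ _
      _ ≤ _ := inv_pow_le21 hD1 hδσ (hσn (d 0) (by omega))
  have hlipH : ∀ a < L, ∀ x, ‖H (x + ((S.Q * (q1 * q') * a : ℕ) : ZMod N)) - H x‖ ≤
      ∑ i : Fin (m + 1), 8 * S.D ^ (-ε1) := by
    intro a ha x
    have haL : (a : ℝ) ≤ L := by exact_mod_cast ha.le
    rw [hH]
    simp only
    refine (prod_sub_prod21 univ (fun i _ => hterm i _ _) (fun i _ => hterm i _ _)).trans ?_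
    refine Finset.sum_le_sum fun i _ => ?_
    have h1 : ((S.Q * (q1 * q') * a : ℕ) : ZMod N) =
        (((S.Q * (q1 * q') * a : ℕ) : ℤ) : ZMod N) := by push_cast; rfl
    have h2 : (((S.Q * (q1 * q') * a : ℕ) : ℤ)) = ((S.Q * q1 : ℕ) : ℤ) * ((q' * a : ℕ) : ℤ) := by
      push_cast; ring
    have h3 : e ((b i : ℝ) / N * ((x + ((S.Q * (q1 * q') * a : ℕ) : ZMod N)).val : ℝ)) =
        e ((b i : ℝ) / N * (x.val : ℝ)) *
          e ((b i : ℝ) / N * (((S.Q * (q1 * q') * a : ℕ) : ℤ) : ℝ)) := by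
      rw [h1, char_add21]
    have h4 : ‖e ((b i : ℝ) / N * (((S.Q * (q1 * q') * a : ℕ) : ℤ) : ℝ)) - 1‖ ≤
        7 * S.D ^ (-ε1) := by
      refine (norm_e_sub_one_le21 _).trans ?_
      have h5 : (b i : ℝ) / N * (((S.Q * (q1 * q') * a : ℕ) : ℤ) : ℝ) =
          ((q1 * a : ℕ) : ℝ) * (q' * ((b i : ℝ) / N * S.Q)) := by
        push_cast; ring
      rw [h5]
      have h6 : dint (((q1 * a : ℕ) : ℝ) * (q' * ((b i : ℝ) / N * S.Q))) ≤ S.D ^ (-ε1) := by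
        calc dint (((q1 * a : ℕ) : ℝ) * (q' * ((b i : ℝ) / N * S.Q)))
            ≤ ((q1 * a : ℕ) : ℝ) * dint (q' * ((b i : ℝ) / N * S.Q)) := dint_mul_le _ _
          _ ≤ (q1 * L) * S.D ^ (ε / 2 - d i) := by
            push_cast
            refine mul_le_mul ?_ (hdi i) (dint_nonneg _) (by positivity)
            gcongr
          _ ≤ (S.D ^ (ε1 / 8) * S.D ^ ((d 0 : ℝ) - ε)) * S.D ^ (ε / 2 - d i) :=
            mul_le_mul_of_nonneg_right hLq1 (by positivity)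
          _ = S.D ^ (ε1 / 8 + ((d 0 : ℝ) - ε) + (ε / 2 - d i)) := by
            rw [Real.rpow_add hD0, Real.rpow_add hD0]
          _ ≤ _ := by
            have : (d 0 : ℝ) ≤ d i := by exact_mod_cast hd0 i
            exact hrp (by linarith)
      have h7 : 2 * Real.pi ≤ 7 := by linarith [Real.pi_lt_d2]
      exact mul_le_mul h7 h6 (dint_nonneg _) (by norm_num)
    have h5 : ‖cc i (x + ((S.Q * (q1 * q') * a : ℕ) : ZMod N) + (S.a c i k0 : ZMod N)) -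
        cc i (x + (S.a c i k0 : ZMod N))‖ ≤ S.D ^ (-ε1) := by
      rw [h1, h2, add_right_comm]
      refine (hlip i _ _).trans ?_
      rw [div_le_iff₀ (hP0 i)]
      have h6 : |(((q' * a : ℕ) : ℤ) : ℝ)| * ((S.Q * q1 : ℕ) : ℝ) ≤ S.P i * S.D ^ (-ε) := by
        rw [abs_of_nonneg (by positivity)]
        refine le_trans ?_ (hLq.trans (mul_le_mul_of_nonneg_right (hP0i i) (by positivity)))
        push_cast
        calc (q' : ℝ) * a * (S.Q * q1) ≤ q' * L * (S.Q * q1) := by gcongr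
          _ = _ := by ring
      calc |(((q' * a : ℕ) : ℤ) : ℝ)| * ((S.Q * q1 : ℕ) : ℝ) * S.D ^ ε1
          ≤ S.P i * S.D ^ (-ε) * S.D ^ ε1 := mul_le_mul_of_nonneg_right h6 (by positivity)
        _ = S.P i * S.D ^ (-ε + ε1) := by
          rw [Real.rpow_add hD0]
          ring
        _ ≤ S.P i * S.D ^ (-ε1) := by
          refine mul_le_mul_of_nonneg_left (hrp ?_) (hP0 i).le
          linarith
        _ = S.D ^ (-ε1) * S.P i := mul_comm _ _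
    rw [h3]
    have h8 : e ((b i : ℝ) / N * (x.val : ℝ)) *
          e ((b i : ℝ) / N * (((S.Q * (q1 * q') * a : ℕ) : ℤ) : ℝ)) *
          cc i (x + ((S.Q * (q1 * q') * a : ℕ) : ZMod N) + (S.a c i k0 : ZMod N)) -
        e ((b i : ℝ) / N * (x.val : ℝ)) * cc i (x + (S.a c i k0 : ZMod N)) =
        e ((b i : ℝ) / N * (x.val : ℝ)) *
          ((e ((b i : ℝ) / N * (((S.Q * (q1 * q') * a : ℕ) : ℤ) : ℝ)) - 1) *
            cc i (x + ((S.Q * (q1 * q') * a : ℕ) : ZMod N) + (S.a c i k0 : ZMod N)) +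
          (cc i (x + ((S.Q * (q1 * q') * a : ℕ) : ZMod N) + (S.a c i k0 : ZMod N)) -
            cc i (x + (S.a c i k0 : ZMod N)))) := by ring
    rw [h8, norm_mul, norm_e, one_mul]
    refine (norm_add_le _ _).trans ?_
    rw [norm_mul]
    have h9 := mul_le_of_le_one_right (norm_nonneg
      (e ((b i : ℝ) / N * (((S.Q * (q1 * q') * a : ℕ) : ℤ) : ℝ)) - 1))
      (hcc1 i (x + ((S.Q * (q1 * q') * a : ℕ) : ZMod N) + (S.a c i k0 : ZMod N)))
    linarith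
  have hfin := frame21 f0 H (S.Q * (q1 * q')) L _ hL hf0.bdd hH1 hlipH
  have hfin2 := hMk.trans hfin
  rw [Finset.sum_const, Finset.card_univ, Fintype.card_fin, nsmul_eq_mul] at hfin2
  have herr2 : ((m + 1 : ℕ) : ℝ) * (8 * S.D ^ (-ε1)) ≤ δ ^ C1 / 4 := by
    have h1 : ((m + 1 : ℕ) : ℝ) * (8 * S.D ^ (-ε1)) * 4 ≤ S.D ^ (-(ε1 / 8)) := by
      push_cast
      calc ((m : ℝ) + 1) * (8 * S.D ^ (-ε1)) * 4 = (32 * (m + 1)) * S.D ^ (-ε1) := by ring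
        _ ≤ S.D ^ (ε1 / 4) * S.D ^ (-ε1) := by
          refine mul_le_mul_of_nonneg_right ?_ (by positivity)
          linarith
        _ = S.D ^ (ε1 / 4 + -ε1) := (Real.rpow_add hD0 _ _).symm
        _ ≤ _ := hrp (by linarith)
    linarith
  have h1 : δ ^ (C1 + (C1 + 1) * C2 + 2) ≤ δ ^ C1 / 4 := by
    calc δ ^ (C1 + (C1 + 1) * C2 + 2) ≤ δ ^ (C1 + 2) :=
          pow_le_pow_of_le_one hδ0.le (by linarith) (by omega)
      _ = δ ^ C1 * (δ * δ) := by ring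
      _ ≤ δ ^ C1 * ((1 / 2) * (1 / 2)) := by gcongr
      _ = _ := by ring
  linarith

end

end Pool.Agent.Helper67.NX2
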