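import Pool.Agent.Helper67.NX2.Defs
import Pool.Agent.Helper5.NX.Basic

/-!
Project NX2, auxiliary lemmas for A35 and A36.
-/

set_option autoImplicit false

open Finset
open scoped BigOperators ComplexConjugate

namespace Pool.Agent.Helper67.NX2

open Pool.Agent.Helper57.NX

noncomputable section

/-- `‖e t - 1‖ ≤ 2π dint t` -/
theorem norm_e_sub_one_le21 (t : ℝ) : ‖e t - 1‖ ≤ 2 * Real.pi * dint t := by
  have h : e t = e (t - round t) := by
    have h1 : t = (t - round t) + ((round t : ℤ) : ℝ) := by ring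
    conv_lhs => rw [h1, e_add, e_int, mul_one]
  have h2 := norm_e_sub_e_le (t - round t) 0
  rw [e_zero, sub_zero] at h2
  rw [h]
  exact h2

/-- characters of `ZMod N` -/
theorem char_add21 {N : ℕ} [NeZero N] (b : ℤ) (x : ZMod N) (t : ℤ) :
    e ((b : ℝ) / N * ((x + (t : ZMod N)).val : ℝ)) =
      e ((b : ℝ) / N * (x.val : ℝ)) * e ((b : ℝ) / N * t) := by
  have hN : (N : ℝ) ≠ 0 := by exact_mod_cast NeZero.ne N
  have h1 : (((x + (t : ZMod N)).val : ℤ) : ZMod N) = (((x.val : ℤ) + t : ℤ) : ZMod N) := by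
    push_cast
    rw [ZMod.natCast_zmod_val, ZMod.natCast_zmod_val]
  obtain ⟨k, hk⟩ := (ZMod.intCast_eq_intCast_iff_dvd_sub _ _ N).mp h1
  have h2 : (((x + (t : ZMod N)).val : ℝ)) = (x.val : ℝ) + t - N * k := by
    have h3 : (((x + (t : ZMod N)).val : ℤ)) = (x.val : ℤ) + t - N * k := by linarith
    exact_mod_cast h3
  have h3 : (b : ℝ) / N * ((x.val : ℝ) + t - N * k) =
      (b : ℝ) / N * x.val + (b : ℝ) / N * t + ((-(b * k) : ℤ) : ℝ) := by
    push_cast
    field_simp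
    ring
  rw [h2, h3, e_add, e_add, e_int, mul_one]

theorem shift_sum21 {G : ℕ → ℂ} (hG : ∀ k, ‖G k‖ ≤ 1) (u T j : ℕ) :
    ‖∑ k ∈ Ico u (u + T), G k - ∑ k ∈ Ico u (u + T), G (k + j)‖ ≤ 2 * j := by
  induction j with
  | zero => simp
  | succ j ih =>
    have h1 : ∑ k ∈ Ico u (u + T), G (k + (j + 1)) =
        ∑ k ∈ Ico u (u + T), G (k + j) + G (u + T + j) - G (u + j) := by
      have h2 : ∀ T : ℕ, ∑ k ∈ Ico u (u + T), G (k + (j + 1)) =
          ∑ k ∈ Ico u (u + T), G (k + j) + G (u + T + j) - G (u + j) := by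
        intro T
        induction T with
        | zero => simp
        | succ T ihT =>
          rw [← add_assoc, Finset.sum_Ico_succ_top (by omega), Finset.sum_Ico_succ_top (by omega),
            ihT]
          have h3 : u + T + (j + 1) = u + T + 1 + j := by ring
          rw [h3]
          ring
      exact h2 T
    rw [h1]
    have h4 : ∑ k ∈ Ico u (u + T), G k -
        (∑ k ∈ Ico u (u + T), G (k + j) + G (u + T + j) - G (u + j)) =
        (∑ k ∈ Ico u (u + T), G k - ∑ k ∈ Ico u (u + T), G (k + j)) +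
          (G (u + j) - G (u + T + j)) := by
      ring
    rw [h4]
    refine (norm_add_le _ _).trans ?_
    have h5 : ‖G (u + j) - G (u + T + j)‖ ≤ 2 := by
      refine (norm_sub_le _ _).trans ?_
      linarith [hG (u + j), hG (u + T + j)]
    push_cast
    linarith

theorem shift_expect21 {G : ℕ → ℂ} (hG : ∀ k, ‖G k‖ ≤ 1) (u T j : ℕ) (hT : 1 ≤ T) :
    ‖𝔼 k ∈ Ico u (u + T), G k - 𝔼 k ∈ Ico u (u + T), G (k + j)‖ ≤ 2 * j / T := by
  have hT0 : (0 : ℝ) < T := by exact_mod_cast hT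
  rw [Finset.expect_eq_sum_div_card, Finset.expect_eq_sum_div_card, ← sub_div, norm_div,
    Nat.card_Ico, Nat.add_sub_cancel_left, Complex.norm_natCast]
  exact div_le_div_of_nonneg_right (shift_sum21 hG u T j) hT0.le

theorem prod_sub_prod21 {ι : Type} (s : Finset ι) {p q : ι → ℂ} (hp : ∀ i ∈ s, ‖p i‖ ≤ 1)
    (hq : ∀ i ∈ s, ‖q i‖ ≤ 1) : ‖∏ i ∈ s, p i - ∏ i ∈ s, q i‖ ≤ ∑ i ∈ s, ‖p i - q i‖ := by
  classical
  induction s using Finset.induction_on with
  | empty => simp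
  | insert i s hi ih =>
    rw [Finset.prod_insert hi, Finset.prod_insert hi, Finset.sum_insert hi]
    have h1 : p i * ∏ j ∈ s, p j - q i * ∏ j ∈ s, q j =
        (p i - q i) * ∏ j ∈ s, p j + q i * (∏ j ∈ s, p j - ∏ j ∈ s, q j) := by ring
    rw [h1]
    refine (norm_add_le _ _).trans (add_le_add ?_ ?_)
    · rw [norm_mul]
      refine mul_le_of_le_one_right (norm_nonneg _) ?_
      rw [norm_prod]
      exact Finset.prod_le_one (fun j _ => norm_nonneg _)
        fun j hj => hp j (Finset.mem_insert_of_mem hj)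
    · rw [norm_mul]
      refine (mul_le_of_le_one_left (norm_nonneg _) (hq i (Finset.mem_insert_self i s))).trans ?_
      exact ih (fun j hj => hp j (Finset.mem_insert_of_mem hj))
        (fun j hj => hq j (Finset.mem_insert_of_mem hj))

theorem e_sum21 {ι : Type} (s : Finset ι) (t : ι → ℝ) : e (∑ i ∈ s, t i) = ∏ i ∈ s, e (t i) := by
  classical
  induction s using Finset.induction_on with
  | empty => rw [Finset.sum_empty, Finset.prod_empty, e_zero]
  | insert i s hi ih => rw [Finset.sum_insert hi, Finset.prod_insert hi, e_add, ih]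

/-- the sequences at natural exponents, steps along `k + q j` -/
theorem step21 (Q lam r k q j d : ℕ) : ∃ t : ℤ,
    (Q : ℤ) * ((lam * (k + q * j) + r : ℕ) : ℤ) ^ d =
      (Q : ℤ) * ((lam * k + r : ℕ) : ℤ) ^ d + ((Q * q : ℕ) : ℤ) * t ∧
    |(t : ℝ)| * ((Q * q : ℕ) : ℝ) ≤
      Q * (d * (lam * (q * j)) * ((lam * (k + q * j) + r : ℕ) : ℝ) ^ (d - 1)) := by
  obtain ⟨t0, ht0⟩ := sub_dvd_pow_sub_pow ((lam * (k + q * j) + r : ℕ) : ℤ)
    ((lam * k + r : ℕ) : ℤ) d
  have h1 : ((lam * (k + q * j) + r : ℕ) : ℤ) - ((lam * k + r : ℕ) : ℤ) = lam * (q * j) := by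
    push_cast; ring
  rw [h1] at ht0
  refine ⟨lam * j * t0, ?_, ?_⟩
  · have h2 : ((lam * (k + q * j) + r : ℕ) : ℤ) ^ d =
        ((lam * k + r : ℕ) : ℤ) ^ d + lam * (q * j) * t0 := by linarith
    rw [h2]
    push_cast
    ring
  · have h3 := abs_pow_sub_pow_le ((lam * (k + q * j) + r : ℕ) : ℝ) ((lam * k + r : ℕ) : ℝ) d
    have h4 : ((lam * (k + q * j) + r : ℕ) : ℝ) ^ d - ((lam * k + r : ℕ) : ℝ) ^ d =
        lam * (q * j) * t0 := by exact_mod_cast ht0
    have h5 : ((lam * (k + q * j) + r : ℕ) : ℝ) - ((lam * k + r : ℕ) : ℝ) = lam * (q * j) := by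
      push_cast; ring
    rw [h4, h5, abs_of_nonneg (by positivity : (0 : ℝ) ≤ lam * (q * j)),
      abs_of_nonneg (by positivity : (0 : ℝ) ≤ ((lam * (k + q * j) + r : ℕ) : ℝ)),
      abs_of_nonneg (by positivity : (0 : ℝ) ≤ ((lam * k + r : ℕ) : ℝ)),
      max_eq_left (by
        have : lam * k ≤ lam * (k + q * j) := Nat.mul_le_mul_left _ (Nat.le_add_right _ _)
        exact_mod_cast Nat.add_le_add_right this r)] at h3
    have h6 : |((lam * j * t0 : ℤ) : ℝ)| * ((Q * q : ℕ) : ℝ) = Q * |(lam : ℝ) * (q * j) * t0| := by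
      push_cast
      rw [abs_mul, abs_mul (lam * (q * j) : ℝ), abs_of_nonneg (by positivity : (0 : ℝ) ≤ lam * j),
        abs_of_nonneg (by positivity : (0 : ℝ) ≤ (lam : ℝ) * (q * j))]
      ring
    rw [h6]
    refine mul_le_mul_of_nonneg_left (h3.trans (le_of_eq ?_)) (Nat.cast_nonneg _)
    ring

/-- `δ⁻¹ ^ n ≤ D ^ η` -/
theorem inv_pow_le21 {D δ σ η : ℝ} {n : ℕ} (hD : 1 ≤ D) (hδ : D ^ (-σ) ≤ δ) (h : σ * n ≤ η) :
    δ⁻¹ ^ n ≤ D ^ η := by
  have hD0 : 0 < D := by linarith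
  have hδ0 : 0 < δ := (Real.rpow_pos_of_pos hD0 _).trans_le hδ
  have h1 : δ⁻¹ ≤ D ^ σ := by
    rw [inv_le_comm₀ hδ0 (Real.rpow_pos_of_pos hD0 _), ← Real.rpow_neg hD0.le]
    exact hδ
  calc δ⁻¹ ^ n ≤ (D ^ σ) ^ n := pow_le_pow_left₀ (by positivity) h1 n
    _ = D ^ (σ * n) := by rw [← Real.rpow_natCast, ← Real.rpow_mul hD0.le]
    _ ≤ D ^ η := Real.rpow_le_rpow_of_exponent_le hD h

theorem le_pow21 {D δ σ η : ℝ} {n : ℕ} (hD : 1 ≤ D) (hδ : D ^ (-σ) ≤ δ) (h : σ * n ≤ η) :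
    D ^ (-η) ≤ δ ^ n := by
  have hD0 : 0 < D := by linarith
  have hδ0 : 0 < δ := (Real.rpow_pos_of_pos hD0 _).trans_le hδ
  have h1 := inv_pow_le21 hD hδ h
  rw [Real.rpow_neg hD0.le]
  rw [inv_pow] at h1
  exact inv_le_of_inv_le₀ (by positivity) h1

end

end Pool.Agent.Helper67.NX2
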